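import Pool.Agent.H84R2.BW.Defs

set_option autoImplicit false
set_option linter.unusedSectionVars false

/-! Task AB of helper84's project (by helper747). -/

namespace Pool.Agent.H84R2.BW

open Finset Pool.Agent.H862R2.Chrom

theorem AB : P_AB := by
  classical
  intro V _ _ G q H N hN
  have h0 : (cnt G (q + 1) H : ℝ) = ∑ T ∈ I G H, (cnt G q (H \ T) : ℝ) := by
    rw [cnt_succ]; push_cast; rfl
  have h1 : (cnt G (q + 1) H : ℝ) - AA G q H N
      = ∑ T ∈ (I G H).filter (fun T => ¬ Disjoint T N), (cnt G q (H \ T) : ℝ) := by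
    rw [h0, ← Finset.sum_filter_add_sum_filter_not (I G H) (fun T => Disjoint T N)]
    unfold AA
    ring
  have h2 : ∑ T ∈ (I G H).filter (fun T => ¬ Disjoint T N), (cnt G q (H \ T) : ℝ)
      ≤ ∑ i ∈ N, ∑ T ∈ (I G H).filter (fun T => i ∈ T), (cnt G q (H \ T) : ℝ) := by
    rw [Finset.sum_filter]
    have : ∀ i ∈ N, ∑ T ∈ (I G H).filter (fun T => i ∈ T), (cnt G q (H \ T) : ℝ)
        = ∑ T ∈ I G H, (if i ∈ T then (cnt G q (H \ T) : ℝ) else 0) := by
      intro i _
      rw [Finset.sum_filter]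
    rw [Finset.sum_congr rfl this, Finset.sum_comm]
    refine Finset.sum_le_sum fun T _ => ?_
    by_cases hd : Disjoint T N
    · rw [if_neg (not_not.2 hd)]
      refine Finset.sum_nonneg fun j _ => ?_
      split_ifs <;> positivity
    · rw [if_pos hd]
      rw [Finset.not_disjoint_iff] at hd
      obtain ⟨i, hiT, hiN⟩ := hd
      have h3 : (if i ∈ T then (cnt G q (H \ T) : ℝ) else 0)
          ≤ ∑ i ∈ N, (if i ∈ T then (cnt G q (H \ T) : ℝ) else 0) := by
        refine Finset.single_le_sum (f := fun i => if i ∈ T then (cnt G q (H \ T) : ℝ) else 0)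
          (fun j _ => ?_) hiN
        split_ifs <;> positivity
      rw [if_pos hiT] at h3
      exact h3
  have h3 : ∀ i ∈ N, ((q : ℝ) + 1) * ∑ T ∈ (I G H).filter (fun T => i ∈ T),
      (cnt G q (H \ T) : ℝ) = (cnt G (q + 1) H : ℝ) := by
    intro i hi
    rw [cnt_succ_mem G q H i (hN hi)]
    push_cast
    rfl
  rw [h1]
  calc ((q : ℝ) + 1) * ∑ T ∈ (I G H).filter (fun T => ¬ Disjoint T N), (cnt G q (H \ T) : ℝ)
      ≤ ((q : ℝ) + 1) * ∑ i ∈ N, ∑ T ∈ (I G H).filter (fun T => i ∈ T),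
          (cnt G q (H \ T) : ℝ) := mul_le_mul_of_nonneg_left h2 (by positivity)
    _ = ∑ i ∈ N, (cnt G (q + 1) H : ℝ) := by
      rw [Finset.mul_sum]
      exact Finset.sum_congr rfl h3
    _ = (N.card : ℝ) * (cnt G (q + 1) H : ℝ) := by
      rw [Finset.sum_const, nsmul_eq_mul]

end Pool.Agent.H84R2.BW
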