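import Pool.Agent.H84R2.BW.Defs

set_option autoImplicit false

/-! Deletion-contraction as a class sum (helper406). -/

namespace Pool.Agent.H84R2.BW

open Finset Pool.Agent.H862R2.Chrom

theorem con_adj {V : Type} {G : SimpleGraph V} {u v a b : V} :
    (G.deleteEdges {s(u, v)}).Adj a b ↔ G.Adj a b ∧ s(a, b) ≠ s(u, v) := by
  rw [SimpleGraph.deleteEdges_adj]
  simp only [Set.mem_singleton_iff, ne_eq]

theorem con_indep {V : Type} [DecidableEq V] {G : SimpleGraph V} {u v : V} {T : Finset V}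
    (h : ¬ (u ∈ T ∧ v ∈ T)) : Indep (G.deleteEdges {s(u, v)}) T ↔ Indep G T := by
  constructor
  · intro hI a ha b hb hab
    refine hI a ha b hb (con_adj.2 ⟨hab, fun he => h ?_⟩)
    rcases Sym2.eq_iff.1 he with ⟨rfl, rfl⟩ | ⟨rfl, rfl⟩
    · exact ⟨ha, hb⟩
    · exact ⟨hb, ha⟩
  · intro hI a ha b hb hab
    exact hI a ha b hb (con_adj.1 hab).1

theorem con_I {V : Type} [DecidableEq V] {G : SimpleGraph V} {u v : V} {W : Finset V}
    (h : ¬ (u ∈ W ∧ v ∈ W)) : I (G.deleteEdges {s(u, v)}) W = I G W := by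
  ext T
  rw [mem_I, mem_I]
  constructor
  · rintro ⟨h1, h2⟩
    exact ⟨h1, (con_indep (fun h3 => h ⟨h1 h3.1, h1 h3.2⟩)).1 h2⟩
  · rintro ⟨h1, h2⟩
    exact ⟨h1, (con_indep (fun h3 => h ⟨h1 h3.1, h1 h3.2⟩)).2 h2⟩

theorem con_cnt {V : Type} [DecidableEq V] {G : SimpleGraph V} {u v : V} (k : ℕ) :
    ∀ W : Finset V, ¬ (u ∈ W ∧ v ∈ W) → cnt (G.deleteEdges {s(u, v)}) k W = cnt G k W := by
  induction k with
  | zero => intro W _; rfl
  | succ k ih =>
    intro W h
    rw [cnt_succ, cnt_succ, con_I h]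
    refine Finset.sum_congr rfl fun T _ => ih _ fun h1 => h ?_
    exact ⟨(Finset.mem_sdiff.1 h1.1).1, (Finset.mem_sdiff.1 h1.2).1⟩

theorem con_second {V : Type} [Fintype V] [DecidableEq V] (G : SimpleGraph V) (q : ℕ)
    (u v : V) (huv : G.Adj u v) :
    ∑ T ∈ ((I (G.deleteEdges {s(u, v)}) univ).filter (fun T => u ∈ T)).filter (fun T => v ∈ T),
        cnt G q (univ \ T)
      = ∑ T ∈ (I G ((univ.erase v).erase u)).filter
          (fun T => Disjoint T (Nb G univ u ∪ Nb G univ v)),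
        cnt G q (((univ.erase v).erase u) \ T) := by
  have hne : u ≠ v := huv.ne
  symm
  refine Finset.sum_bij' (fun T _ => insert u (insert v T)) (fun T _ => (T.erase u).erase v)
    ?_ ?_ ?_ ?_ ?_
  · intro T hT
    rw [Finset.mem_filter, mem_I] at hT
    obtain ⟨⟨hK, hI⟩, hD⟩ := hT
    have hNu : ∀ a ∈ T, ¬ G.Adj u a := fun a ha hua =>
      (Finset.disjoint_left.1 hD ha) (Finset.mem_union_left _ (mem_Nb G |>.2 ⟨mem_univ _, hua⟩))
    have hNv : ∀ a ∈ T, ¬ G.Adj v a := fun a ha hva =>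
      (Finset.disjoint_left.1 hD ha) (Finset.mem_union_right _ (mem_Nb G |>.2 ⟨mem_univ _, hva⟩))
    rw [Finset.mem_filter, Finset.mem_filter, mem_I]
    refine ⟨⟨⟨Finset.subset_univ _, ?_⟩, Finset.mem_insert_self _ _⟩,
      Finset.mem_insert_of_mem (Finset.mem_insert_self _ _)⟩
    intro a ha b hb hab
    obtain ⟨h1, h2⟩ := con_adj.1 hab
    rw [Finset.mem_insert, Finset.mem_insert] at ha hb
    rcases ha with rfl | rfl | ha
    · rcases hb with rfl | rfl | hb
      · exact h1.ne rfl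
      · exact h2 rfl
      · exact hNu b hb h1
    · rcases hb with rfl | rfl | hb
      · exact h2 Sym2.eq_swap
      · exact h1.ne rfl
      · exact hNv b hb h1
    · rcases hb with rfl | rfl | hb
      · exact hNu a ha h1.symm
      · exact hNv a ha h1.symm
      · exact hI a ha b hb h1
  · intro T hT
    rw [Finset.mem_filter, Finset.mem_filter, mem_I] at hT
    obtain ⟨⟨⟨-, hI⟩, hu⟩, hv⟩ := hT
    rw [Finset.mem_filter, mem_I]
    refine ⟨⟨?_, ?_⟩, ?_⟩
    · intro a ha
      have h1 := Finset.ne_of_mem_erase ha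
      have h2 := Finset.ne_of_mem_erase (Finset.mem_of_mem_erase ha)
      exact Finset.mem_erase.2 ⟨h2, Finset.mem_erase.2 ⟨h1, mem_univ _⟩⟩
    · intro a ha b hb hab
      have h1 := Finset.ne_of_mem_erase ha
      have h2 := Finset.ne_of_mem_erase (Finset.mem_of_mem_erase ha)
      refine hI a (Finset.mem_of_mem_erase (Finset.mem_of_mem_erase ha)) b
        (Finset.mem_of_mem_erase (Finset.mem_of_mem_erase hb)) (con_adj.2 ⟨hab, fun he => ?_⟩)
      rcases Sym2.eq_iff.1 he with ⟨h3, _⟩ | ⟨h3, _⟩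
      · exact h2 h3
      · exact h1 h3
    · rw [Finset.disjoint_left]
      intro a ha hN
      have h1 := Finset.ne_of_mem_erase ha
      have h2 := Finset.ne_of_mem_erase (Finset.mem_of_mem_erase ha)
      have haT := Finset.mem_of_mem_erase (Finset.mem_of_mem_erase ha)
      rcases Finset.mem_union.1 hN with h | h
      · refine hI u hu a haT (con_adj.2 ⟨(mem_Nb G |>.1 h).2, fun he => ?_⟩)
        rcases Sym2.eq_iff.1 he with ⟨_, h3⟩ | ⟨h3, _⟩
        · exact h1 h3
        · exact hne h3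
      · refine hI v hv a haT (con_adj.2 ⟨(mem_Nb G |>.1 h).2, fun he => ?_⟩)
        rcases Sym2.eq_iff.1 he with ⟨h3, _⟩ | ⟨_, h3⟩
        · exact hne h3.symm
        · exact h2 h3
  · intro T hT
    rw [Finset.mem_filter, mem_I] at hT
    obtain ⟨⟨hK, hI⟩, hD⟩ := hT
    have hu : u ∉ T := fun h => (Finset.ne_of_mem_erase (hK h)) rfl
    have hv : v ∉ T := fun h => (Finset.ne_of_mem_erase (Finset.mem_of_mem_erase (hK h))) rfl
    have hu' : u ∉ insert v T := by
      rw [Finset.mem_insert]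
      rintro (h | h)
      · exact hne h
      · exact hu h
    rw [Finset.erase_insert hu', Finset.erase_insert hv]
  · intro T hT
    rw [Finset.mem_filter, Finset.mem_filter, mem_I] at hT
    obtain ⟨⟨⟨-, hI⟩, hu⟩, hv⟩ := hT
    rw [Finset.insert_erase (Finset.mem_erase.2 ⟨hne.symm, hv⟩), Finset.insert_erase hu]
  · intro T hT
    congr 1
    ext a
    simp only [Finset.mem_sdiff, Finset.mem_erase, Finset.mem_univ, Finset.mem_insert, true_and,
      and_true]
    tauto

theorem con_first {V : Type} [Fintype V] [DecidableEq V] (G : SimpleGraph V)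
    (u v : V) (huv : G.Adj u v) :
    ((I (G.deleteEdges {s(u, v)}) univ).filter (fun T => u ∈ T)).filter (fun T => ¬ v ∈ T)
      = (I G univ).filter (fun T => u ∈ T) := by
  ext T
  rw [Finset.mem_filter, Finset.mem_filter, Finset.mem_filter, mem_I, mem_I]
  constructor
  · rintro ⟨⟨⟨h1, h2⟩, h3⟩, h4⟩
    exact ⟨⟨h1, (con_indep (fun h => h4 h.2)).1 h2⟩, h3⟩
  · rintro ⟨⟨h1, h2⟩, h3⟩
    have h4 : v ∉ T := fun h => h2 u h3 v h huv
    exact ⟨⟨⟨h1, (con_indep (fun h => h4 h.2)).2 h2⟩, h3⟩, h4⟩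

theorem CON : P_CON := by
  intro V _ _ G q u v huv
  have h1 := cnt_succ_mem (G.deleteEdges {s(u, v)}) q univ u (mem_univ _)
  have h2 := cnt_succ_mem G q univ u (mem_univ _)
  have h3 : ∑ T ∈ (I (G.deleteEdges {s(u, v)}) univ).filter (fun T => u ∈ T),
        cnt (G.deleteEdges {s(u, v)}) q (univ \ T)
      = ∑ T ∈ (I G univ).filter (fun T => u ∈ T), cnt G q (univ \ T)
        + ∑ T ∈ (I G ((univ.erase v).erase u)).filter
          (fun T => Disjoint T (Nb G univ u ∪ Nb G univ v)),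
        cnt G q (((univ.erase v).erase u) \ T) := by
    rw [← con_second G q u v huv, ← con_first G u v huv, add_comm,
      Finset.sum_filter_add_sum_filter_not]
    refine Finset.sum_congr rfl fun T hT => con_cnt q _ fun h => ?_
    exact (Finset.mem_sdiff.1 h.1).2 (Finset.mem_filter.1 hT).2
  rw [h3, mul_add, ← h2] at h1
  rw [h1]
  unfold AA
  push_cast
  rfl

end Pool.Agent.H84R2.BW

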