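import Pool.Agent.H84R2.BW.Defs

set_option autoImplicit false
set_option linter.unusedSectionVars false

/-! Task CR of helper84's project (by helper747). -/

namespace Pool.Agent.H84R2.BW

open Finset Pool.Agent.H862R2.Chrom

theorem CR : P_CR := by
  intro V _ _ G q H v hv
  have hv' : v ∈ insert v H := Finset.mem_insert_self v H
  have her : (insert v H).erase v = H := Finset.erase_insert hv
  have hNb : Nb G (insert v H) v = Nb G H v := by
    rw [← Nb_erase G (insert v H) v, her]
  have hcard : cnt G q (insert v H) = ∑ c ∈ F G q H, (Av G q (insert v H) v c).card := by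
    rw [← card_F, card_F_vertex G q (insert v H) v hv', her]
  have hF : (F G q H).card = cnt G q H := card_F G q H
  have hAv : ∀ c ∈ F G q H, (Av G q (insert v H) v c).card + (cols G (insert v H) v c).card = q := by
    intro c hc
    refine card_Av G v ?_
    rw [← cols_erase, her]
    exact cols_sub G hc v
  have hcols : ∀ c : V → ℕ, (cols G (insert v H) v c).card ≤ (Nb G H v).card := by
    intro c
    unfold cols
    rw [hNb]
    exact Finset.card_image_le
  have hcast : (cnt G q (insert v H) : ℝ)
      = ∑ c ∈ F G q H, ((Av G q (insert v H) v c).card : ℝ) := by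
    rw [hcard]; push_cast; rfl
  constructor
  · rw [hcast, ← hF, mul_comm, ← nsmul_eq_mul]
    refine Finset.card_nsmul_le_sum _ _ _ fun c hc => ?_
    have h1 := hAv c hc
    have h2 := hcols c
    have h1' : ((Av G q (insert v H) v c).card : ℝ) + ((cols G (insert v H) v c).card : ℝ)
        = (q : ℝ) := by exact_mod_cast h1
    have h2' : ((cols G (insert v H) v c).card : ℝ) ≤ ((Nb G H v).card : ℝ) := by
      exact_mod_cast h2
    linarith
  · rw [hcast, ← hF, mul_comm, ← nsmul_eq_mul]
    refine Finset.sum_le_card_nsmul _ _ _ fun c hc => ?_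
    have h1 := hAv c hc
    have h1' : ((Av G q (insert v H) v c).card : ℝ) + ((cols G (insert v H) v c).card : ℝ)
        = (q : ℝ) := by exact_mod_cast h1
    have h3 : (0 : ℝ) ≤ ((cols G (insert v H) v c).card : ℝ) := by positivity
    linarith

end Pool.Agent.H84R2.BW
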