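import Pool.Agent.H84R2.BW.Defs

set_option autoImplicit false

namespace Pool.Agent.H84R2.BW

open Finset Pool.Agent.H862R2.Chrom

theorem E1 (h : P_XI) : P_E1 := by
  intro V _ _ G q H N hH hN
  have h1 : ∑ T ∈ (I G H).filter (fun T => ¬ Disjoint T N),
        (cnt G q (H \ T) : ℝ) * (T.card : ℝ) ≤
      ∑ i ∈ N, ∑ T ∈ (I G H).filter (fun T => i ∈ T),
        (cnt G q (H \ T) : ℝ) * (T.card : ℝ) := by
    simp only [Finset.sum_filter]
    rw [Finset.sum_comm]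
    apply Finset.sum_le_sum
    intro T _
    have h0 : (0:ℝ) ≤ (cnt G q (H \ T) : ℝ) * (T.card : ℝ) := by positivity
    have h00 : ∀ j ∈ N, (0:ℝ) ≤ if j ∈ T then (cnt G q (H \ T) : ℝ) * (T.card : ℝ) else 0 := by
      intro j _
      split_ifs
      · exact h0
      · exact le_rfl
    by_cases hd : Disjoint T N
    · rw [if_neg (not_not.mpr hd)]
      exact Finset.sum_nonneg h00
    · rw [if_pos hd]
      obtain ⟨i, hi1, hi2⟩ := Finset.not_disjoint_iff.mp hd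
      have := Finset.single_le_sum h00 hi2
      rwa [if_pos hi1] at this
  have h2 : ∀ i ∈ N, ((q : ℝ) + 1) * ∑ T ∈ (I G H).filter (fun T => i ∈ T),
      (cnt G q (H \ T) : ℝ) * (T.card : ℝ) ≤ 2 * (cnt G (q + 1) H : ℝ) :=
    fun i hi => h V G q H i hH (hN hi)
  calc ((q : ℝ) + 1) * ∑ T ∈ (I G H).filter (fun T => ¬ Disjoint T N),
        (cnt G q (H \ T) : ℝ) * (T.card : ℝ)
      ≤ ((q : ℝ) + 1) * ∑ i ∈ N, ∑ T ∈ (I G H).filter (fun T => i ∈ T),
        (cnt G q (H \ T) : ℝ) * (T.card : ℝ) :=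
        mul_le_mul_of_nonneg_left h1 (by positivity)
    _ = ∑ i ∈ N, ((q : ℝ) + 1) * ∑ T ∈ (I G H).filter (fun T => i ∈ T),
        (cnt G q (H \ T) : ℝ) * (T.card : ℝ) := by rw [Finset.mul_sum]
    _ ≤ ∑ _i ∈ N, 2 * (cnt G (q + 1) H : ℝ) := Finset.sum_le_sum h2
    _ = 2 * (N.card : ℝ) * (cnt G (q + 1) H : ℝ) := by
        rw [Finset.sum_const, nsmul_eq_mul]; ring

end Pool.Agent.H84R2.BW
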