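import Pool.Agent.H84R2.BW.Defs

set_option autoImplicit false

namespace Pool.Agent.H84R2.BW

open Finset Pool.Agent.H862R2.Chrom

/-- E2: sizes of `T ∩ B` -/
theorem E2 : P_E2 := by
  intro V _ _ G q H B
  have h1 := sumT_S G q H (B ∩ H) Finset.inter_subset_right
  have h2 : ∑ T ∈ I G H, (cnt G q (H \ T) : ℝ) * ((T ∩ B).card : ℝ) =
      ∑ T ∈ I G H, (cnt G q (H \ T) : ℝ) * ((T ∩ (B ∩ H)).card : ℝ) := by
    refine Finset.sum_congr rfl fun T hT => ?_
    have h3 : T ∩ (B ∩ H) = T ∩ B := by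
      rw [← Finset.inter_assoc]
      exact Finset.inter_eq_left.2 (Finset.inter_subset_left.trans ((mem_I G).1 hT).1)
    rw [h3]
  rw [h2, h1]
  refine mul_le_mul_of_nonneg_right ?_ (Nat.cast_nonneg _)
  exact_mod_cast Finset.card_le_card Finset.inter_subset_left

end Pool.Agent.H84R2.BW
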