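import Pool.Agent.H84R2.BW.Defs

/-! Task E4 (author helper171): sizes of the classes avoiding `N`. -/

set_option autoImplicit false

namespace Pool.Agent.H84R2.BW

open Finset Pool.Agent.H862R2.Chrom

theorem E4 : P_E4 := by
  classical
  intro V _ _ G q H N hN
  have h1 := sumT_S G q H (H \ N) Finset.sdiff_subset
  have h2 : (((H \ N).card : ℕ) : ℝ) = (H.card : ℝ) - (N.card : ℝ) := by
    rw [Finset.card_sdiff_of_subset hN, Nat.cast_sub (Finset.card_le_card hN)]
  rw [h2] at h1
  rw [← h1]
  refine mul_le_mul_of_nonneg_left ?_ (by positivity)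
  calc ∑ T ∈ (I G H).filter (fun T => Disjoint T N), (cnt G q (H \ T) : ℝ) * (T.card : ℝ)
      = ∑ T ∈ (I G H).filter (fun T => Disjoint T N),
          (cnt G q (H \ T) : ℝ) * ((T ∩ (H \ N)).card : ℝ) := by
        refine Finset.sum_congr rfl fun T hT => ?_
        rw [Finset.mem_filter] at hT
        have h3 : T ∩ (H \ N) = T := by
          rw [Finset.inter_eq_left]
          intro x hx
          rw [Finset.mem_sdiff]
          exact ⟨((mem_I G).1 hT.1).1 hx, fun hxN => Finset.disjoint_left.1 hT.2 hx hxN⟩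
        rw [h3]
    _ ≤ ∑ T ∈ I G H, (cnt G q (H \ T) : ℝ) * ((T ∩ (H \ N)).card : ℝ) := by
        refine Finset.sum_le_sum_of_subset_of_nonneg (Finset.filter_subset _ _) ?_
        intro _ _ _
        positivity

end Pool.Agent.H84R2.BW
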