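import Pool.Agent.H84R2.BW.Defs

set_option autoImplicit false
set_option linter.unusedSectionVars false

namespace Pool.Agent.H84R2.BW

open Finset Pool.Agent.H862R2.Chrom

theorem FIN1_AA_inter {V : Type} [DecidableEq V] (G : SimpleGraph V) (q : ℕ) (H S : Finset V) :
    AA G q H S = AA G q H (S ∩ H) := by
  unfold AA
  refine Finset.sum_congr ?_ fun _ _ => rfl
  refine Finset.filter_congr fun T hT => ?_
  have hTH := ((mem_I G).1 hT).1
  rw [Finset.disjoint_left, Finset.disjoint_left]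
  constructor
  · intro h a ha ha'
    exact h ha (Finset.mem_inter.1 ha').1
  · intro h a ha ha'
    exact h ha (Finset.mem_inter.2 ⟨ha', hTH ha⟩)

theorem FIN1_AA_empty {V : Type} [Fintype V] [DecidableEq V] (G : SimpleGraph V) (q : ℕ)
    (H : Finset V) : AA G q H ∅ = (cnt G (q + 1) H : ℝ) := by
  unfold AA
  rw [← sumT_one]
  refine Finset.sum_congr ?_ fun _ _ => rfl
  refine Finset.filter_true_of_mem fun T _ => Finset.disjoint_empty_right T

theorem FIN1 (hPOS : P_POS) (hMONO : P_MONO) (hE1 : P_E1) (hUP : P_UP)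
    (hTEL : P_TEL) (hREC : P_REC) (hLOWV : P_LOWV) (hRED : P_RED) (hNUM1 : P_NUM1) :
    P_FIN1 := by
  intro V _ _ G D hdeg hcard u v huv
  classical
  have hne : u ≠ v := huv.ne
  have hD1 : 1 ≤ D := by
    have : 0 < (Nb G Finset.univ u).card :=
      Finset.card_pos.2 ⟨v, (mem_Nb G).2 ⟨Finset.mem_univ v, huv⟩⟩
    exact le_trans this (hdeg u)
  obtain ⟨q, hq⟩ : ∃ q, Fintype.card V = q + 2 := ⟨Fintype.card V - 2, by omega⟩
  rw [hq] at hcard
  set K : Finset V := (Finset.univ.erase v).erase u with hK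
  set Ev : Finset V := Finset.univ.erase v with hEv
  have hEvc : Ev.card = q + 1 := by
    rw [hEv, Finset.card_erase_of_mem (Finset.mem_univ v), Finset.card_univ, hq]; rfl
  have huEv : u ∈ Ev := by rw [hEv, Finset.mem_erase]; exact ⟨hne, Finset.mem_univ u⟩
  have hKc : K.card = q := by
    rw [hK, Finset.card_erase_of_mem huEv, hEvc]; rfl
  have huK : u ∉ K := Finset.notMem_erase u _
  have hvEv : v ∉ Ev := Finset.notMem_erase v _
  have hKu : insert u K = Ev := Finset.insert_erase huEv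
  have hEvu : insert v Ev = Finset.univ := Finset.insert_erase (Finset.mem_univ v)
  have hlow : LowOut G D ∅ := fun z _ => hdeg z
  have hpos1 : ∀ U : Finset V, U.card ≤ q + 1 → (0 : ℝ) < (cnt G q U : ℝ) :=
    fun U hU => hPOS V G D q ∅ U hlow (by omega) (by simp) hU
  have hpos2 : ∀ U : Finset V, U.card ≤ q + 2 → (0 : ℝ) < (cnt G (q + 1) U : ℝ) :=
    fun U hU => hPOS V G D (q + 1) ∅ U hlow (by omega) (by simp) hU
  have hpos3 : ∀ U : Finset V, U.card ≤ q + 3 → (0 : ℝ) < (cnt G (q + 2) U : ℝ) :=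
    fun U hU => hPOS V G D (q + 2) ∅ U hlow (by omega) (by simp) hU
  have hRB : RB G ∅ q ((q : ℝ) + 1 - (3 * D : ℕ)) :=
    hREC V G D (3 * D) ∅ q hlow (by simp; omega) (by simp) (by omega)
  have hDr : (1 : ℝ) ≤ D := by exact_mod_cast hD1
  have hsr : 9 * (D : ℝ) ≤ (q : ℝ) + 2 := by exact_mod_cast hcard
  set s : ℝ := (q : ℝ) + 1 with hs
  have hs9 : 9 * (D : ℝ) - 1 ≤ s := by rw [hs]; linarith
  set t : ℝ := s - 3 * (D : ℝ) with ht
  have htm : (q : ℝ) + 1 - ((3 * D : ℕ) : ℝ) = t := by rw [ht, hs]; push_cast; ring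
  rw [htm] at hRB
  have ht5 : 5 ≤ t := by rw [ht]; linarith
  have hs0 : 0 < s := by linarith
  set N : Finset V := (Nb G Finset.univ u ∪ Nb G Finset.univ v) ∩ K with hN
  have hNc : (N.card : ℝ) ≤ 2 * ((D : ℝ) - 1) := by
    have h1 : N ⊆ (Nb G Finset.univ u).erase v ∪ (Nb G Finset.univ v).erase u := by
      intro a ha
      rw [hN, Finset.mem_inter, Finset.mem_union, hK, Finset.mem_erase, Finset.mem_erase] at ha
      rw [Finset.mem_union, Finset.mem_erase, Finset.mem_erase]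
      rcases ha.1 with h | h
      · exact Or.inl ⟨ha.2.2.1, h⟩
      · exact Or.inr ⟨ha.2.1, h⟩
    have h2 := (Finset.card_le_card h1).trans (Finset.card_union_le _ _)
    rw [Finset.card_erase_of_mem ((mem_Nb G).2 ⟨Finset.mem_univ v, huv⟩),
      Finset.card_erase_of_mem ((mem_Nb G).2 ⟨Finset.mem_univ u, huv.symm⟩)] at h2
    have h3 := hdeg u
    have h4 := hdeg v
    have h5 : N.card + 2 ≤ 2 * D := by omega
    have h6 : (N.card : ℝ) + 2 ≤ 2 * D := by exact_mod_cast h5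
    linarith
  -- the upper bound
  have htel := hTEL V G ∅ q t (by linarith) hRB hpos1 K (by omega)
  have hwt : ∀ T : Finset V, wt (∅ : Finset V) T = (T.card : ℝ) := fun T => by
    simp [wt]
  have hup := hUP V G q K ∅ N (fun T => (T.card : ℝ) / t) (hpos1 K (by omega))
    (by
      intro T hT
      have := htel T ((mem_I G).1 hT).1
      rw [hwt] at this
      exact this)
    (by
      intro T hT
      have := hMONO V G q K (K \ T) (by omega) (hpos1 K (by omega)) Finset.sdiff_subset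
      linarith)
    (Finset.empty_subset _)
  rw [FIN1_AA_empty, FIN1_AA_empty] at hup
  have hEsum : ∑ T ∈ (I G K).filter (fun T => Disjoint T ∅ ∧ ¬ Disjoint T N),
      (cnt G q (K \ T) : ℝ) * ((T.card : ℝ) / t)
      = (∑ T ∈ (I G K).filter (fun T => ¬ Disjoint T N),
          (cnt G q (K \ T) : ℝ) * (T.card : ℝ)) / t := by
    rw [Finset.sum_div]
    refine Finset.sum_congr ?_ fun T _ => by rw [mul_div_assoc]
    refine Finset.filter_congr fun T _ => ?_
    simp
  rw [hEsum] at hup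
  have hE := hE1 V G q K N (by omega) Finset.inter_subset_right
  set Z : ℝ := (cnt G (q + 1) K : ℝ) with hZ
  set Z' : ℝ := (cnt G (q + 1 + 1) K : ℝ) with hZ'
  have hZ0 : 0 < Z := hpos2 K (by omega)
  have hZ'0 : 0 < Z' := hpos3 K (by omega)
  set E : ℝ := ∑ T ∈ (I G K).filter (fun T => ¬ Disjoint T N),
          (cnt G q (K \ T) : ℝ) * (T.card : ℝ) with hEdef
  set A : ℝ := AA G q K N with hA
  set A' : ℝ := AA G (q + 1) K N with hA'
  have hA0 : 0 ≤ A := Finset.sum_nonneg fun _ _ => Nat.cast_nonneg _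
  have hA'0 : 0 ≤ A' := Finset.sum_nonneg fun _ _ => Nat.cast_nonneg _
  have hEle : E / t ≤ 4 * ((D : ℝ) - 1) / (s * t) * Z := by
    have h1 : s * E ≤ 4 * ((D : ℝ) - 1) * Z := by
      refine hE.trans ?_
      refine mul_le_mul_of_nonneg_right ?_ hZ0.le
      linarith
    rw [div_mul_eq_mul_div, div_le_div_iff₀ (by linarith) (by positivity)]
    have : E * (s * t) = (s * E) * t := by ring
    rw [this]
    exact mul_le_mul_of_nonneg_right h1 (by linarith)
  have hkey1 : A' * ((1 - 4 * ((D : ℝ) - 1) / (s * t)) * Z) ≤ Z' * A := by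
    refine le_trans (mul_le_mul_of_nonneg_left ?_ hA'0) hup
    linarith
  -- lower bounds
  have hκ : (1 : ℝ) / t < 1 := by rw [div_lt_one (by linarith)]; linarith
  have hκ2 : (1 / t) / (1 - 1 / t) = 1 / (t - 1) := by
    have h1 : t ≠ 0 := by linarith
    have h2 : t - 1 ≠ 0 := by linarith
    have h3 : (1 : ℝ) - 1 / t = (t - 1) / t := by field_simp
    rw [h3]; field_simp
  have hlu := hLOWV V G D (3 * D) ∅ q K u hlow (by simp; omega) (by simp) (by omega) huK
    (by omega) (D - 1)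
    (by
      have h1 : Nb G K u ⊆ (Nb G Finset.univ u).erase v := by
        intro a ha
        rw [mem_Nb, hK, Finset.mem_erase, Finset.mem_erase] at ha
        rw [Finset.mem_erase, mem_Nb]
        exact ⟨ha.1.2.1, Finset.mem_univ a, ha.2⟩
      have h2 := Finset.card_le_card h1
      rw [Finset.card_erase_of_mem ((mem_Nb G).2 ⟨Finset.mem_univ v, huv⟩)] at h2
      have h3 := hdeg u
      omega)
    (by omega) (1 / t)
    (by rw [htm]; simp) hκ
  have hlv := hLOWV V G D (3 * D) ∅ q Ev v hlow (by simp; omega) (by simp) (by omega) hvEv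
    (by omega) D
    (by
      have h1 : Nb G Ev v ⊆ Nb G Finset.univ v := by
        intro a ha
        rw [mem_Nb] at ha ⊢
        exact ⟨Finset.mem_univ a, ha.2⟩
      exact (Finset.card_le_card h1).trans (hdeg v))
    le_rfl (1 / t)
    (by rw [htm]; simp) hκ
  rw [hKu] at hlu
  rw [hEvu] at hlv
  rw [hκ2] at hlu hlv
  have hDc : ((D - 1 : ℕ) : ℝ) = (D : ℝ) - 1 := by rw [Nat.cast_sub hD1]; simp
  rw [hDc] at hlu
  have hq2 : (q : ℝ) + 2 = s + 1 := by rw [hs]; ring
  rw [hq2] at hlu hlv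
  change (s + 1) * (Z' * (cnt G (q + 1) Ev : ℝ))
      ≤ s * (1 + 1 / (t - 1) * (((D : ℝ) - 1) / s))
          * ((cnt G (q + 2) Ev : ℝ) * Z) at hlu
  change (s + 1) * ((cnt G (q + 2) Ev : ℝ) * (cnt G (q + 1) Finset.univ : ℝ))
      ≤ s * (1 + 1 / (t - 1) * ((D : ℝ) / s))
          * ((cnt G (q + 2) Finset.univ : ℝ) * (cnt G (q + 1) Ev : ℝ)) at hlv
  have hnum := hNUM1 (D : ℝ) s hDr hs9
  have ht1 : s - 3 * (D : ℝ) - 1 = t - 1 := by rw [ht]
  rw [ht1] at hnum
  change s * (1 + 1 / (t - 1) * (((D : ℝ) - 1) / s)) * (1 + 1 / (t - 1) * ((D : ℝ) / s))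
    ≤ (s + 1) * (1 - 4 * ((D : ℝ) - 1) / (s * t)) at hnum
  set α : ℝ := 1 + 1 / (t - 1) * (((D : ℝ) - 1) / s) with hα
  set β : ℝ := 1 + 1 / (t - 1) * ((D : ℝ) / s) with hβ
  set ε : ℝ := 4 * ((D : ℝ) - 1) / (s * t) with hε
  have hα1 : 1 ≤ α := by
    have : 0 ≤ 1 / (t - 1) * (((D : ℝ) - 1) / s) :=
      mul_nonneg (div_nonneg zero_le_one (by linarith)) (div_nonneg (by linarith) hs0.le)
    rw [hα]; linarith
  have hβ1 : 1 ≤ β := by
    have : 0 ≤ 1 / (t - 1) * ((D : ℝ) / s) :=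
      mul_nonneg (div_nonneg zero_le_one (by linarith)) (div_nonneg (by linarith) hs0.le)
    rw [hβ]; linarith
  set c1 : ℝ := (cnt G (q + 1) Ev : ℝ) with hc1
  set c2 : ℝ := (cnt G (q + 2) Ev : ℝ) with hc2
  set w1 : ℝ := (cnt G (q + 1) Finset.univ : ℝ) with hw1
  set w2 : ℝ := (cnt G (q + 2) Finset.univ : ℝ) with hw2
  have hc10 : 0 < c1 := hpos2 Ev (by omega)
  have hc20 : 0 < c2 := hpos3 Ev (by omega)
  have hw10 : 0 < w1 := hpos2 Finset.univ (by rw [Finset.card_univ]; omega)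
  have hw20 : 0 < w2 := hpos3 Finset.univ (by rw [Finset.card_univ]; omega)
  have hmul : (s + 1) ^ 2 * (Z' * w1) ≤ s ^ 2 * (α * β) * (w2 * Z) := by
    have h1 := mul_le_mul hlu hlv (by positivity) (by positivity)
    have h2 : (s + 1) * (Z' * c1) * ((s + 1) * (c2 * w1))
        = ((s + 1) ^ 2 * (Z' * w1)) * (c1 * c2) := by ring
    have h3 : s * α * (c2 * Z) * (s * β * (w2 * c1))
        = (s ^ 2 * (α * β) * (w2 * Z)) * (c1 * c2) := by ring
    rw [h2, h3] at h1
    exact le_of_mul_le_mul_right h1 (by positivity)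
  have hs1 : 0 < s + 1 := by linarith
  have hepos : 0 < 1 - ε := by
    have h1 : 0 < s * α * β := by positivity
    have h2 : 0 < (s + 1) * (1 - ε) := lt_of_lt_of_le h1 hnum
    exact pos_of_mul_pos_right h2 hs1.le
  refine hRED V G q u v huv hq ?_
  rw [FIN1_AA_inter G (q + 1), FIN1_AA_inter G q]
  change ((q : ℝ) + 2) * A' * w1 ≤ s * A * w2
  rw [hq2]
  -- (A' (1-ε) Z) (s+1)^2 w1 ≤ Z' A (s+1)^2 w1 ≤ A s^2 αβ w2 Z ≤ A s w2 Z (s+1)(1-ε)
  have h1 : A' * ((1 - ε) * Z) * ((s + 1) ^ 2 * w1) ≤ Z' * A * ((s + 1) ^ 2 * w1) :=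
    mul_le_mul_of_nonneg_right hkey1 (by positivity)
  have h2 : Z' * A * ((s + 1) ^ 2 * w1) ≤ A * (s ^ 2 * (α * β) * (w2 * Z)) := by
    have := mul_le_mul_of_nonneg_left hmul hA0
    calc _ = A * ((s + 1) ^ 2 * (Z' * w1)) := by ring
      _ ≤ _ := this
  have h3 : A * (s ^ 2 * (α * β) * (w2 * Z)) ≤ A * (s * (w2 * Z)) * ((s + 1) * (1 - ε)) := by
    have := mul_le_mul_of_nonneg_left hnum (by positivity : 0 ≤ A * (s * (w2 * Z)))
    calc _ = A * (s * (w2 * Z)) * (s * α * β) := by ring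
      _ ≤ _ := this
  have h4 := (h1.trans h2).trans h3
  have h5 : A' * ((1 - ε) * Z) * ((s + 1) ^ 2 * w1)
      = ((s + 1) * A' * w1) * ((s + 1) * (1 - ε) * Z) := by ring
  have h6 : A * (s * (w2 * Z)) * ((s + 1) * (1 - ε))
      = (s * A * w2) * ((s + 1) * (1 - ε) * Z) := by ring
  rw [h5, h6] at h4
  exact le_of_mul_le_mul_right h4 (by positivity)

end Pool.Agent.H84R2.BW
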