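import Pool.Agent.H84R2.BW.Defs

set_option autoImplicit false
set_option linter.unusedSectionVars false
set_option linter.unusedVariables false

namespace Pool.Agent.H84R2.BW

open Finset Pool.Agent.H862R2.Chrom

private theorem fin2_AA {V : Type} [DecidableEq V] (G : SimpleGraph V) (q : ℕ) (K S S' : Finset V)
    (h : ∀ z ∈ K, (z ∈ S ↔ z ∈ S')) : AA G q K S = AA G q K S' := by
  unfold AA
  refine Finset.sum_congr ?_ fun _ _ => rfl
  refine Finset.filter_congr ?_
  intro T hT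
  have hTK : T ⊆ K := ((mem_I G).1 hT).1
  rw [Finset.disjoint_left, Finset.disjoint_left]
  constructor
  · intro h1 z hz hz'
    exact h1 hz ((h z (hTK hz)).2 hz')
  · intro h1 z hz hz'
    exact h1 hz ((h z (hTK hz)).1 hz')

private theorem fin2_alg {q ε a a' c c' x y UR δ : ℝ} (hq : 0 ≤ q) (ha : 0 < a) (hc : 0 ≤ c)
    (hc' : 0 ≤ c') (hx : 0 ≤ x) (hy : 0 ≤ y) (h1 : c' * (a - UR) ≤ a' * c) (hUR : UR ≤ ε * a)
    (hδ : 0 ≤ δ)
    (h2 : (q + 2) * (((q + 2) * a') * x) ≤ (q + 1) * (1 + δ) * (y * ((q + 1) * a)))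
    (h3 : (q + 1) * (1 + δ) ≤ (q + 2) * (1 - ε)) : (q + 2) * c' * x ≤ (q + 1) * c * y := by
  have hε : 0 < 1 - ε := by
    have : 0 < (q + 2) * (1 - ε) := lt_of_lt_of_le (by positivity) h3
    exact (pos_iff_pos_of_mul_pos this).1 (by positivity)
  have e1 : c' * ((1 - ε) * a) ≤ a' * c := by
    refine le_trans ?_ h1
    apply mul_le_mul_of_nonneg_left _ hc'
    linarith
  have e2 : (q + 2) * a' * x ≤ (1 - ε) * (y * ((q + 1) * a)) := by
    have hya : 0 ≤ y * ((q + 1) * a) := by positivity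
    have : (q + 2) * (((q + 2) * a') * x) ≤ (q + 2) * ((1 - ε) * (y * ((q + 1) * a))) := by
      calc _ ≤ (q + 1) * (1 + δ) * (y * ((q + 1) * a)) := h2
        _ ≤ (q + 2) * (1 - ε) * (y * ((q + 1) * a)) := mul_le_mul_of_nonneg_right h3 hya
        _ = _ := by ring
    exact le_of_mul_le_mul_left this (by linarith)
  have hpos : 0 < (1 - ε) * a := mul_pos hε ha
  have e3 : (1 - ε) * a * ((q + 2) * c' * x) ≤ (1 - ε) * a * ((q + 1) * c * y) := by
    calc (1 - ε) * a * ((q + 2) * c' * x) = ((q + 2) * x) * (c' * ((1 - ε) * a)) := by ring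
      _ ≤ ((q + 2) * x) * (a' * c) := mul_le_mul_of_nonneg_left e1 (by positivity)
      _ = c * ((q + 2) * a' * x) := by ring
      _ ≤ c * ((1 - ε) * (y * ((q + 1) * a))) := mul_le_mul_of_nonneg_left e2 hc
      _ = _ := by ring
  exact le_of_mul_le_mul_left e3 hpos

theorem FIN2 (hPOS : P_POS) (hMONO : P_MONO) (hE1 : P_E1) (hE2 : P_E2) (hINS : P_INS)
    (hUP : P_UP) (hTEL : P_TEL) (hYB : P_YB) (hREC : P_REC) (hLOWV : P_LOWV) (hRED : P_RED)
    (hNUM2 : P_NUM2) : P_FIN2 := by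
  intro V _ _ G D B hlow hb hD u v huv hdv
  have hnb : u ∈ Nb G Finset.univ v := (mem_Nb G).2 ⟨mem_univ _, huv.symm⟩
  have hD1 : 1 ≤ D := le_trans (Finset.card_pos.2 ⟨u, hnb⟩) hdv
  obtain ⟨q, hq⟩ : ∃ q, Fintype.card V = q + 2 := ⟨Fintype.card V - 2, by omega⟩
  have hne : u ≠ v := huv.ne
  have huW : u ∈ Finset.univ.erase v := mem_erase.2 ⟨hne, mem_univ _⟩
  have hWc : (Finset.univ.erase v).card = q + 1 := by
    rw [card_erase_of_mem (mem_univ _), Finset.card_univ, hq]; rfl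
  have hKc : ((Finset.univ.erase v).erase u).card = q := by
    rw [card_erase_of_mem huW, hWc]; rfl
  have hKW : insert u ((Finset.univ.erase v).erase u) = Finset.univ.erase v := insert_erase huW
  have hWV : insert v (Finset.univ.erase v) = Finset.univ := insert_erase (mem_univ v)
  apply hRED V G q u v huv hq
  set K : Finset V := (Finset.univ.erase v).erase u with hK
  set W : Finset V := Finset.univ.erase v with hW
  set Nu : Finset V := Nb G K u with hNu
  set Nv : Finset V := Nb G K v with hNv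
  have hSe : ∀ z ∈ K, (z ∈ Nb G Finset.univ u ∪ Nb G Finset.univ v ↔ z ∈ Nu ∪ Nv) := by
    intro z hz
    simp only [mem_union, hNu, hNv, mem_Nb, mem_univ, true_and, hz]
  rw [fin2_AA G (q + 1) K _ _ hSe, fin2_AA G q K _ _ hSe]
  -- parameters
  set b : ℕ := B.card with hbdef
  set m : ℕ := 3 * D + 2 * b with hm
  have hmq : m + 1 ≤ q := by omega
  set t : ℝ := (q : ℝ) + 1 - m with ht
  have hRB : RB G B q t := hREC V G D m B q hlow (by omega) (by omega) hmq
  have hq14 : m + 3 ≤ q := by omega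
  have ht2 : 2 < t := by
    have : (m : ℝ) + 3 ≤ q := by exact_mod_cast hq14
    rw [ht]; linarith
  have ht0 : 0 < t := by linarith
  have hpos : ∀ U : Finset V, U.card ≤ q + 1 → (0 : ℝ) < (cnt G q U : ℝ) := fun U hU =>
    hPOS V G D q B U hlow (by omega) (by omega) hU
  set κ : ℝ := (1 + (b : ℝ) / ((q : ℝ) + 1 - D)) / t with hκ
  have hmr : (m : ℝ) = 3 * D + 2 * b := by rw [hm]; push_cast; ring
  obtain ⟨hκ1, hexp, hnum⟩ := hNUM2 (D : ℝ) (b : ℝ) ((q : ℝ) + 1) (by exact_mod_cast hD1)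
    (Nat.cast_nonneg _) (by exact_mod_cast hb) (by
      rcases Nat.eq_zero_or_pos b with h0 | h0
      · left; exact_mod_cast h0
      · right
        have : 2 ≤ D := by omega
        exact_mod_cast this) (by
      have : (18 : ℝ) * D ≤ q + 2 := by
        have h1 : 18 * D ≤ q + 2 := by omega
        exact_mod_cast h1
      linarith) t κ (by rw [ht, hmr]) hκ
  -- the upper bound
  have hKq1 : K.card ≤ q + 1 := by omega
  have hposK := hpos K hKq1
  have hup := hUP V G q K Nu (Nu ∪ Nv) (fun T => wt B T / t) hposK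
    (fun T hT => hTEL V G B q t ht2.le hRB hpos K hKq1 T ((mem_I G).1 hT).1)
    (fun T hT => hMONO V G q K (K \ T) hKq1 hposK sdiff_subset) subset_union_left
  have hZ0 : (0 : ℝ) ≤ (cnt G (q + 1) K : ℝ) := Nat.cast_nonneg _
  have hq0 : (0 : ℝ) ≤ q := Nat.cast_nonneg _
  have hnv : (Nv.card : ℝ) ≤ (D : ℝ) - 1 := by
    have h1 : Nv ⊆ (Nb G Finset.univ v).erase u := by
      intro z hz
      have hz' := (mem_Nb G).1 hz
      rw [mem_erase]
      exact ⟨(mem_erase.1 hz'.1).1, (mem_Nb G).2 ⟨mem_univ _, hz'.2⟩⟩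
    have h2 := card_le_card h1
    rw [card_erase_of_mem hnb] at h2
    have h3 : Nv.card + 1 ≤ D := by omega
    have h4 : ((Nv.card : ℝ)) + 1 ≤ D := by exact_mod_cast h3
    linarith
  have hNvK : Nv ⊆ K := fun z hz => ((mem_Nb G).1 hz).1
  have he1 := hE1 V G q K Nv hKq1 hNvK
  have he2 := hE2 V G q K B
  set UR : ℝ := ∑ T ∈ (I G K).filter (fun T => Disjoint T Nu ∧ ¬ Disjoint T (Nu ∪ Nv)),
    (cnt G q (K \ T) : ℝ) * (wt B T / t) with hUR
  have hURle : t * UR ≤ ∑ T ∈ (I G K).filter (fun T => ¬ Disjoint T Nv),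
        (cnt G q (K \ T) : ℝ) * (T.card : ℝ) +
      ∑ T ∈ I G K, (cnt G q (K \ T) : ℝ) * ((T ∩ B).card : ℝ) := by
    have h1 : t * UR = ∑ T ∈ (I G K).filter (fun T => Disjoint T Nu ∧ ¬ Disjoint T (Nu ∪ Nv)),
        (cnt G q (K \ T) : ℝ) * (T.card : ℝ) +
        ∑ T ∈ (I G K).filter (fun T => Disjoint T Nu ∧ ¬ Disjoint T (Nu ∪ Nv)),
        (cnt G q (K \ T) : ℝ) * ((T ∩ B).card : ℝ) := by
      rw [hUR, mul_sum, ← sum_add_distrib]
      refine sum_congr rfl fun T _ => ?_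
      simp only [wt]
      field_simp
    rw [h1]
    apply add_le_add
    · apply sum_le_sum_of_subset_of_nonneg
      · intro T hT
        rw [mem_filter] at hT ⊢
        refine ⟨hT.1, fun hd => hT.2.2 ?_⟩
        rw [disjoint_union_right]
        exact ⟨hT.2.1, hd⟩
      · intro _ _ _; positivity
    · apply sum_le_sum_of_subset_of_nonneg (filter_subset _ _)
      intro _ _ _; positivity
  have hYBK := hYB V G B q t ht2 hRB hpos K hKq1
  have hZle : (cnt G (q + 1) K : ℝ) ≤ (cnt G q K : ℝ) * (9 / 2) := by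
    refine hYBK.trans (mul_le_mul_of_nonneg_left ?_ (Nat.cast_nonneg _))
    refine le_trans (le_of_eq ?_) hexp
    rw [hKc, add_sub_cancel_right]
  have haK : (cnt G q K : ℝ) ≤ AA G q K Nu := by
    have h1 : (cnt G q K : ℝ) = (cnt G q (K \ ∅) : ℝ) := by rw [sdiff_empty]
    rw [h1]
    unfold AA
    apply single_le_sum (f := fun T => (cnt G q (K \ T) : ℝ)) (fun _ _ => Nat.cast_nonneg _)
    rw [mem_filter]
    exact ⟨empty_mem_I G K, disjoint_empty_left _⟩
  have haPos : 0 < AA G q K Nu := lt_of_lt_of_le hposK haK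
  set ε : ℝ := (9 / 2) * (2 * ((D : ℝ) - 1) + b) / (((q : ℝ) + 1) * t) with hε
  have hURε : UR ≤ ε * AA G q K Nu := by
    have hs0 : (0 : ℝ) < (q : ℝ) + 1 := by positivity
    have h1 : ((q : ℝ) + 1) * (t * UR) ≤ (2 * ((D : ℝ) - 1) + b) * (cnt G (q + 1) K : ℝ) := by
      calc ((q : ℝ) + 1) * (t * UR) ≤ ((q : ℝ) + 1) * (∑ T ∈ (I G K).filter (fun T => ¬ Disjoint T Nv),
        (cnt G q (K \ T) : ℝ) * (T.card : ℝ) +
          ∑ T ∈ I G K, (cnt G q (K \ T) : ℝ) * ((T ∩ B).card : ℝ)) :=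
            mul_le_mul_of_nonneg_left hURle hs0.le
        _ ≤ 2 * (Nv.card : ℝ) * (cnt G (q + 1) K : ℝ) + (B.card : ℝ) * (cnt G (q + 1) K : ℝ) := by
            rw [mul_add]; exact add_le_add he1 he2
        _ ≤ 2 * ((D : ℝ) - 1) * (cnt G (q + 1) K : ℝ) + (B.card : ℝ) * (cnt G (q + 1) K : ℝ) := by
            have := mul_le_mul_of_nonneg_right hnv hZ0
            linarith
        _ = _ := by rw [← hbdef]; ring
    have hDb : 0 ≤ 2 * ((D : ℝ) - 1) + b := by
      have : (1 : ℝ) ≤ D := by exact_mod_cast hD1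
      have : (0 : ℝ) ≤ b := Nat.cast_nonneg _
      linarith
    have h2 : ((q : ℝ) + 1) * (t * UR) ≤ (2 * ((D : ℝ) - 1) + b) * (AA G q K Nu * (9 / 2)) := by
      refine h1.trans (mul_le_mul_of_nonneg_left ?_ hDb)
      refine hZle.trans ?_
      linarith
    have h3 : 0 < ((q : ℝ) + 1) * t := by positivity
    rw [hε, div_mul_eq_mul_div, le_div_iff₀ h3]
    calc UR * (((q : ℝ) + 1) * t) = ((q : ℝ) + 1) * (t * UR) := by ring
      _ ≤ _ := h2
      _ = _ := by ring
  -- insertion formulas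
  have huK : u ∉ K := by rw [hK]; exact notMem_erase _ _
  have hins1 := hINS V G q K u huK
  have hins2 := hINS V G (q + 1) K u huK
  rw [hKW] at hins1 hins2
  -- the lower bound for v
  have hvW : v ∉ W := by rw [hW]; exact notMem_erase _ _
  have hNW : (Nb G W v).card ≤ D := by
    refine le_trans (card_le_card ?_) hdv
    intro z hz
    exact (mem_Nb G).2 ⟨mem_univ _, ((mem_Nb G).1 hz).2⟩
  have hlv := hLOWV V G D m B q W v hlow (by omega) (by omega) hmq hvW (by omega) D hNW le_rfl κ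
    (by rw [hκ, ht]) hκ1
  rw [hWV] at hlv
  have hAA0 : ∀ (k : ℕ) (S : Finset V), 0 ≤ AA G k K S := by
    intro k S
    unfold AA
    exact sum_nonneg fun _ _ => Nat.cast_nonneg _
  have hκ0 : 0 ≤ κ := by
    rw [hκ]
    apply div_nonneg _ ht0.le
    have h1 : (D : ℝ) ≤ q := by
      have : D ≤ q := by omega
      exact_mod_cast this
    have : 0 ≤ (b : ℝ) / ((q : ℝ) + 1 - D) := div_nonneg (Nat.cast_nonneg _) (by linarith)
    linarith
  have hδ : 0 ≤ κ / (1 - κ) * ((D : ℝ) / ((q : ℝ) + 1)) := by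
    apply mul_nonneg (div_nonneg hκ0 (by linarith))
    positivity
  have hcast : (((q + 1 : ℕ) : ℝ)) + 1 = (q : ℝ) + 2 := by push_cast; ring
  rw [hcast] at hins2
  have hlv' : ((q : ℝ) + 2) * ((((q : ℝ) + 2) * AA G (q + 1) K Nu) * (cnt G (q + 1) Finset.univ : ℝ)) ≤
      ((q : ℝ) + 1) * (1 + κ / (1 - κ) * ((D : ℝ) / ((q : ℝ) + 1))) *
        ((cnt G (q + 2) Finset.univ : ℝ) * (((q : ℝ) + 1) * AA G q K Nu)) := by
    rw [← hins1, ← hins2]
    exact hlv
  have hnum' : ((q : ℝ) + 1) * (1 + κ / (1 - κ) * ((D : ℝ) / ((q : ℝ) + 1))) ≤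
      ((q : ℝ) + 2) * (1 - ε) := by
    have e : ((q : ℝ) + 1) + 1 = (q : ℝ) + 2 := by ring
    rw [e] at hnum
    exact hnum
  exact fin2_alg hq0 haPos (hAA0 q _) (hAA0 (q + 1) _) (Nat.cast_nonneg _) (Nat.cast_nonneg _) hup
    hURε hδ hlv' hnum'

end Pool.Agent.H84R2.BW
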