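import Pool.Agent.H84R2.BW.Defs

set_option autoImplicit false
set_option linter.unusedSectionVars false

/-! Task INS of helper84's project (by helper747). -/

namespace Pool.Agent.H84R2.BW

open Finset Pool.Agent.H862R2.Chrom

theorem INS : P_INS := by
  classical
  intro V _ _ G q H v hv
  have h1 := P_insert G H v hv (q : ℝ)
  have h2 : ((q : ℝ) + 1) = ((q + 1 : ℕ) : ℝ) := by push_cast; ring
  have h3 : (P G (insert v H)).eval ((q : ℝ) + 1) = (cnt G (q + 1) (insert v H) : ℝ) := by
    rw [h2, P_nat]
  rw [h3] at h1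
  rw [h1]
  congr 1
  unfold AA
  refine Finset.sum_congr ?_ fun T _ => P_nat G _ q
  ext T
  simp only [Finset.mem_filter, mem_I]
  refine and_congr_right fun hT => ?_
  rw [Finset.disjoint_left]
  constructor
  · intro h a ha ha'
    exact h a ha ((mem_Nb G).1 ha').2
  · intro h a ha hadj
    exact h ha ((mem_Nb G).2 ⟨hT.1 ha, hadj⟩)

end Pool.Agent.H84R2.BW
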