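import Pool.Agent.H84R2.BW.Defs

set_option autoImplicit false

namespace Pool.Agent.H84R2.BW

open Finset Pool.Agent.H862R2.Chrom

theorem LO : P_LO := by
  intro V _ _ G q H N u κ h0 hκ0 hκ1 h1 h2 h3
  set n0 : ℝ := (cnt G (q + 1) H : ℝ) with hn0
  set d0 : ℝ := (cnt G q H : ℝ) with hd0
  have hn : 0 ≤ n0 := Nat.cast_nonneg _
  set A := AA G q H N with hA
  set A' := AA G (q + 1) H N with hA'
  have hA0 : 0 ≤ A := Finset.sum_nonneg fun T _ => Nat.cast_nonneg _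
  have hA'0 : 0 ≤ A' := Finset.sum_nonneg fun T _ => Nat.cast_nonneg _
  set F := (I G H).filter (fun T => Disjoint T N) with hF
  set F' := (I G H).filter (fun T => ¬ Disjoint T N) with hF'
  have eA : A = ∑ T ∈ F, (cnt G q (H \ T) : ℝ) := rfl
  have eA' : A' = ∑ T ∈ F, (cnt G (q + 1) (H \ T) : ℝ) := rfl
  have z1 : A + ∑ T ∈ F', (cnt G q (H \ T) : ℝ) = n0 := by
    rw [eA, hn0, ← sumT_one G q H]
    exact Finset.sum_filter_add_sum_filter_not _ _ _
  have z2 : A' + ∑ T ∈ F', (cnt G (q + 1) (H \ T) : ℝ) = (cnt G (q + 2) H : ℝ) := by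
    rw [eA', ← sumT_one G (q + 1) H]
    exact Finset.sum_filter_add_sum_filter_not _ _ _
  set Ra := ∑ T ∈ F', (cnt G q (H \ T) : ℝ) with hRa
  set Rb := ∑ T ∈ F', (cnt G (q + 1) (H \ T) : ℝ) with hRb
  have hRa0 : 0 ≤ Ra := Finset.sum_nonneg fun T _ => Nat.cast_nonneg _
  have g1 : Rb * d0 ≤ n0 * Ra := by
    rw [hRa, hRb, Finset.mul_sum, Finset.sum_mul]
    exact Finset.sum_le_sum fun T hT => h2 T (Finset.mem_filter.1 hT).1
  have g2 : n0 * ((1 - κ) * A) ≤ A' * d0 := by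
    have e1 : n0 * (A - ∑ T ∈ F, (cnt G q (H \ T) : ℝ) * u T) ≤ A' * d0 := by
      rw [eA, eA', ← Finset.sum_sub_distrib, Finset.mul_sum, Finset.sum_mul]
      refine Finset.sum_le_sum fun T hT => ?_
      have := h1 T (Finset.mem_filter.1 hT).1
      linarith
    have e2 : n0 * ((1 - κ) * A) ≤ n0 * (A - ∑ T ∈ F, (cnt G q (H \ T) : ℝ) * u T) := by
      apply mul_le_mul_of_nonneg_left _ hn
      linarith
    exact e2.trans e1
  rw [← z2, ← z1]
  -- (1-κ) (A' + Rb) A ≤ A' (A + Ra - κ A)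
  have e4 : (1 - κ) * A * (Rb * d0) ≤ (1 - κ) * A * (n0 * Ra) :=
    mul_le_mul_of_nonneg_left g1 (mul_nonneg (by linarith) hA0)
  have e5 : n0 * ((1 - κ) * A) * Ra ≤ A' * d0 * Ra := mul_le_mul_of_nonneg_right g2 hRa0
  have e6 : d0 * ((1 - κ) * A * Rb) ≤ d0 * (A' * Ra) := by linarith
  have e7 := le_of_mul_le_mul_left e6 h0
  nlinarith [e7]

end Pool.Agent.H84R2.BW
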