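import Pool.Agent.H84R2.BW.Defs

set_option autoImplicit false

namespace Pool.Agent.H84R2.BW

open Finset Pool.Agent.H862R2.Chrom

theorem LOWV_num (κ d s Z Z' A A' : ℝ) (hκ1 : κ < 1) (hs : 0 < s) (hA' : 0 ≤ A')
    (hκ0 : 0 ≤ κ) (hA : s * A ≥ (s - d) * Z)
    (h : (1 - κ) * (Z' * A) ≤ A' * (Z - κ * A)) :
    Z' * A ≤ (1 + κ / (1 - κ) * (d / s)) * (A' * Z) := by
  have h1 : 0 < 1 - κ := by linarith
  have h2 : κ * (s * A) ≥ κ * ((s - d) * Z) := mul_le_mul_of_nonneg_left hA hκ0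
  have h3 : s * (Z - κ * A) ≤ (s * (1 - κ) + κ * d) * Z := by nlinarith
  have h4 : s * ((1 - κ) * (Z' * A)) ≤ A' * ((s * (1 - κ) + κ * d) * Z) := by
    calc s * ((1 - κ) * (Z' * A)) ≤ s * (A' * (Z - κ * A)) :=
          mul_le_mul_of_nonneg_left h hs.le
      _ = A' * (s * (Z - κ * A)) := by ring
      _ ≤ A' * ((s * (1 - κ) + κ * d) * Z) := mul_le_mul_of_nonneg_left h3 hA'
  have h5 : (1 + κ / (1 - κ) * (d / s)) * (A' * Z) =
      (A' * ((s * (1 - κ) + κ * d) * Z)) / (s * (1 - κ)) := by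
    field_simp
  rw [h5, le_div_iff₀ (by positivity)]
  linarith

theorem LOWV (hPOS : P_POS) (hMONO : P_MONO) (hINS : P_INS) (hAB : P_AB) (hE2 : P_E2)
    (hE4 : P_E4) (hLO : P_LO) (hTEL : P_TEL) (hREC : P_REC) : P_LOWV := by
  intro V _ _ G D m B q H v hB h1 h2 hmq hv hHc d hNd hdD κ hκ hκ1
  have hD : D < q := by omega
  have hBq : B.card ≤ q := by omega
  set b : ℝ := (B.card : ℝ) with hb
  have hb0 : 0 ≤ b := Nat.cast_nonneg _
  set t : ℝ := (q : ℝ) + 1 - m with ht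
  have hmqR : (m : ℝ) + 1 ≤ q := by exact_mod_cast hmq
  have ht2 : 2 ≤ t := by rw [ht]; linarith
  have hdR : (d : ℝ) ≤ D := Nat.cast_le.2 hdD
  have hDq : (D : ℝ) < q := Nat.cast_lt.2 hD
  have hsd : 0 < (q : ℝ) + 1 - d := by linarith
  have ht0 : 0 < t := by linarith
  have pos0 : ∀ U : Finset V, U.card ≤ q + 1 → (0 : ℝ) < (cnt G q U : ℝ) := fun U hU =>
    hPOS V G D q B U hB hD hBq hU
  have tel := hTEL V G B q t ht2 (hREC V G D m B q hB h1 h2 hmq) pos0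
  set N := Nb G H v with hN
  have hNH : N ⊆ H := fun x hx => ((mem_Nb G).1 hx).1
  have ins0 := hINS V G q H v hv
  have ins1 := hINS V G (q + 1) H v hv
  have hNdR : (N.card : ℝ) ≤ d := Nat.cast_le.2 hNd
  have hHcR : (H.card : ℝ) ≤ (q : ℝ) + 1 := by
    have e31 : (H.card : ℝ) ≤ ((q + 1 : ℕ) : ℝ) := Nat.cast_le.2 hHc
    rw [Nat.cast_add, Nat.cast_one] at e31
    exact e31
  have hκ0 : 0 ≤ κ := by
    rw [hκ]
    have : 0 ≤ b / ((q : ℝ) + 1 - d) := div_nonneg hb0 hsd.le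
    exact div_nonneg (by linarith) ht0.le
  set Z : ℝ := (cnt G (q + 1) H : ℝ) with hZ
  have hZ0 : 0 ≤ Z := Nat.cast_nonneg _
  have ab := hAB V G q H N hNH
  rw [← hZ] at ab
  set A := AA G q H N with hA
  set A' := AA G (q + 1) H N with hA'
  have hA'0 : 0 ≤ A' := Finset.sum_nonneg fun T _ => Nat.cast_nonneg _
  have hs : (0 : ℝ) < (q : ℝ) + 1 := by positivity
  set S1 := ∑ T ∈ (I G H).filter (fun T => Disjoint T N),
    (cnt G q (H \ T) : ℝ) * (T.card : ℝ) with hS1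
  set S2 := ∑ T ∈ (I G H).filter (fun T => Disjoint T N),
    (cnt G q (H \ T) : ℝ) * ((T ∩ B).card : ℝ) with hS2
  have e4 : ((q : ℝ) + 1) * S1 ≤ ((H.card : ℝ) - (N.card : ℝ)) * Z := hE4 V G q H N hNH
  have e2 : ((q : ℝ) + 1) * S2 ≤ b * Z := by
    refine le_trans ?_ (hE2 V G q H B)
    apply mul_le_mul_of_nonneg_left _ hs.le
    exact Finset.sum_le_sum_of_subset_of_nonneg (Finset.filter_subset _ _)
      fun T _ _ => mul_nonneg (Nat.cast_nonneg _) (Nat.cast_nonneg _)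
  -- the hypothesis on kappa
  have hkap : ∑ T ∈ (I G H).filter (fun T => Disjoint T N),
      (cnt G q (H \ T) : ℝ) * ((fun T => wt B T / t) T) ≤ κ * A := by
    have e5 : ∑ T ∈ (I G H).filter (fun T => Disjoint T N),
        (cnt G q (H \ T) : ℝ) * ((fun T => wt B T / t) T) = (S1 + S2) / t := by
      rw [hS1, hS2, ← Finset.sum_add_distrib, Finset.sum_div]
      refine Finset.sum_congr rfl fun T _ => ?_
      show (cnt G q (H \ T) : ℝ) * (wt B T / t) = _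
      rw [wt]; ring
    rw [e5, hκ, div_mul_eq_mul_div]
    apply div_le_div_of_nonneg_right _ ht0.le
    -- S1 + S2 ≤ (1 + b/(s-d)) A
    have e6 : ((q : ℝ) + 1) * (S1 + S2) ≤ ((q : ℝ) + 1 - N.card + b) * Z := by
      have : ((H.card : ℝ) - (N.card : ℝ)) * Z ≤ ((q : ℝ) + 1 - N.card) * Z :=
        mul_le_mul_of_nonneg_right (by linarith) hZ0
      linarith
    have e7 : ((q : ℝ) + 1 - N.card) * Z ≤ ((q : ℝ) + 1) * A := by linarith
    have e8 : ((q : ℝ) + 1 - N.card + b) * Z ≤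
        (1 + b / ((q : ℝ) + 1 - d)) * (((q : ℝ) + 1 - N.card) * Z) := by
      have e9 : b ≤ b / ((q : ℝ) + 1 - d) * ((q : ℝ) + 1 - N.card) := by
        rw [div_mul_eq_mul_div, le_div_iff₀ hsd]
        exact mul_le_mul_of_nonneg_left (by linarith) hb0
      have e10 := mul_le_mul_of_nonneg_right e9 hZ0
      linarith
    have e11 : (1 + b / ((q : ℝ) + 1 - d)) * (((q : ℝ) + 1 - N.card) * Z) ≤
        (1 + b / ((q : ℝ) + 1 - d)) * (((q : ℝ) + 1) * A) := by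
      apply mul_le_mul_of_nonneg_left e7
      have : 0 ≤ b / ((q : ℝ) + 1 - d) := div_nonneg hb0 hsd.le
      linarith
    have e12 : ((q : ℝ) + 1) * (S1 + S2) ≤ ((q : ℝ) + 1) * ((1 + b / ((q : ℝ) + 1 - d)) * A) := by
      linarith
    exact le_of_mul_le_mul_left e12 hs
  have lo := hLO V G q H N (fun T => wt B T / t) κ (pos0 H hHc) hκ0 hκ1.le
    (fun T hT => tel H hHc T ((mem_I G).1 hT).1)
    (fun T hT => hMONO V G q H (H \ T) hHc (pos0 H hHc) Finset.sdiff_subset)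
    hkap
  rw [← hZ, ← hA, ← hA'] at lo
  have fin := LOWV_num κ d ((q : ℝ) + 1) Z (cnt G (q + 2) H : ℝ) A A' hκ1 hs hA'0 hκ0
    (by
      have : (N.card : ℝ) * Z ≤ d * Z := mul_le_mul_of_nonneg_right hNdR hZ0
      nlinarith) lo
  rw [ins0]
  have ins1' : (cnt G (q + 2) (insert v H) : ℝ) = ((q : ℝ) + 2) * A' := by
    rw [show q + 2 = q + 1 + 1 from rfl, ins1]
    push_cast
    ring
  rw [ins1']
  have h6 : (0 : ℝ) ≤ ((q : ℝ) + 2) * ((q : ℝ) + 1) := by positivity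
  have h7 := mul_le_mul_of_nonneg_left fin h6
  calc ((q : ℝ) + 2) * ((cnt G (q + 2) H : ℝ) * (((q : ℝ) + 1) * A)) =
      ((q : ℝ) + 2) * ((q : ℝ) + 1) * ((cnt G (q + 2) H : ℝ) * A) := by ring
    _ ≤ _ := h7
    _ = ((q : ℝ) + 1) * (1 + κ / (1 - κ) * ((d : ℝ) / ((q : ℝ) + 1)))
          * (((q : ℝ) + 2) * A' * Z) := by ring

end Pool.Agent.H84R2.BW
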