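import Pool.Agent.H84R2.BW.Defs

set_option autoImplicit false

/-!
MONO: monotonicity of the ratio, including the lowest level (helper880).
-/

namespace Pool.Agent.H84R2.BW

open Finset Pool.Agent.H862R2.Chrom

theorem MONO_real {V : Type} [Fintype V] [DecidableEq V] (G : SimpleGraph V) (W U : Finset V)
    (hU : U ⊆ W) (μ : ℝ) (hμ : (W.card : ℝ) - 1 < μ) :
    (P G U).eval (μ + 1) * (P G W).eval μ ≤ (P G W).eval (μ + 1) * (P G U).eval μ := by
  have h1 := Y_mono' G W U hU μ hμ
  have hc : (U.card : ℝ) ≤ W.card := by exact_mod_cast card_le_card hU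
  have hpW : 0 < (P G W).eval μ := P_pos' G W μ hμ
  have hpU : 0 < (P G U).eval μ := P_pos' G U μ (by linarith)
  unfold Y at h1
  rwa [div_le_div_iff₀ hpU hpW] at h1

theorem MONO : P_MONO := by
  intro V _ _ G q W U hW _ hU
  have hWq : (W.card : ℝ) - 1 ≤ q := by
    have : (W.card : ℝ) ≤ (q : ℝ) + 1 := by exact_mod_cast hW
    linarith
  have hcl : (q : ℝ) ∈ closure (Set.Ioi (q : ℝ)) := by
    rw [closure_Ioi]
    exact Set.mem_Ici.2 le_rfl
  have hcont1 : Continuous (fun μ : ℝ => (P G U).eval (μ + 1) * (P G W).eval μ) :=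
    ((P G U).continuous.comp (continuous_id.add continuous_const)).mul (P G W).continuous
  have hcont2 : Continuous (fun μ : ℝ => (P G W).eval (μ + 1) * (P G U).eval μ) :=
    ((P G W).continuous.comp (continuous_id.add continuous_const)).mul (P G U).continuous
  have hle : ∀ μ ∈ closure (Set.Ioi (q : ℝ)),
      (P G U).eval (μ + 1) * (P G W).eval μ ≤ (P G W).eval (μ + 1) * (P G U).eval μ := by
    intro μ hμ
    exact le_on_closure (s := Set.Ioi (q : ℝ))
      (fun x hx => MONO_real G W U hU x (hWq.trans_lt hx)) hcont1.continuousOn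
      hcont2.continuousOn hμ
  have h := hle q hcl
  have e1 : ((q : ℝ) + 1) = ((q + 1 : ℕ) : ℝ) := by push_cast; ring
  rw [e1, P_nat, P_nat, P_nat, P_nat] at h
  exact h

end Pool.Agent.H84R2.BW
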