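import Pool.Agent.H84R2.BW.Defs

set_option autoImplicit false

namespace Pool.Agent.H84R2.BW

theorem NUM1_aux (x y : ℝ) (hx : 0 ≤ x) (hy : 0 ≤ y) :
    ((8 + 9 * x + y) * (4 + 6 * x + y) + x) * ((8 + 9 * x + y) * (4 + 6 * x + y) + (1 + x))
        * (5 + 6 * x + y)
      ≤ (9 + 9 * x + y) * ((8 + 9 * x + y) * (5 + 6 * x + y) - 4 * x) * (4 + 6 * x + y) ^ 2 := by
  have h : (9 + 9 * x + y) * ((8 + 9 * x + y) * (5 + 6 * x + y) - 4 * x) * (4 + 6 * x + y) ^ 2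
      - ((8 + 9 * x + y) * (4 + 6 * x + y) + x) * ((8 + 9 * x + y) * (4 + 6 * x + y) + (1 + x))
        * (5 + 6 * x + y)
      = 480 + 436 * y + 143 * y ^ 2 + 20 * y ^ 3 + y ^ 4 + 1895 * x + 1320 * x * y
        + 294 * x * y ^ 2 + 21 * x * y ^ 3 + 2455 * x ^ 2 + 1217 * x ^ 2 * y
        + 144 * x ^ 2 * y ^ 2 + 1038 * x ^ 3 + 324 * x ^ 3 * y := by
    ring
  have h2 : 0 ≤ 480 + 436 * y + 143 * y ^ 2 + 20 * y ^ 3 + y ^ 4 + 1895 * x + 1320 * x * y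
        + 294 * x * y ^ 2 + 21 * x * y ^ 3 + 2455 * x ^ 2 + 1217 * x ^ 2 * y
        + 144 * x ^ 2 * y ^ 2 + 1038 * x ^ 3 + 324 * x ^ 3 * y := by positivity
  linarith

theorem NUM1 : P_NUM1 := by
  intro D s hD hs
  obtain ⟨x, rfl⟩ : ∃ x, D = 1 + x := ⟨D - 1, by ring⟩
  obtain ⟨y, rfl⟩ : ∃ y, s = 8 + 9 * x + y := ⟨s - (8 + 9 * x), by ring⟩
  have hx : 0 ≤ x := by linarith
  have hy : 0 ≤ y := by linarith
  have hw : 0 < 4 + 6 * x + y := by positivity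
  have hs0 : 0 < 8 + 9 * x + y := by positivity
  have hw1 : 0 < 5 + 6 * x + y := by positivity
  have e1 : 8 + 9 * x + y - 3 * (1 + x) - 1 = 4 + 6 * x + y := by ring
  have e2 : 8 + 9 * x + y - 3 * (1 + x) = 5 + 6 * x + y := by ring
  have e3 : 1 + x - 1 = x := by ring
  rw [e1, e2, e3]
  have hL : (8 + 9 * x + y) * (1 + 1 / (4 + 6 * x + y) * (x / (8 + 9 * x + y)))
        * (1 + 1 / (4 + 6 * x + y) * ((1 + x) / (8 + 9 * x + y)))
      = (((8 + 9 * x + y) * (4 + 6 * x + y) + x) * ((8 + 9 * x + y) * (4 + 6 * x + y) + (1 + x))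
        * (5 + 6 * x + y)) / ((8 + 9 * x + y) * (4 + 6 * x + y) ^ 2 * (5 + 6 * x + y)) := by
    field_simp
  have hR : (8 + 9 * x + y + 1) * (1 - 4 * x / ((8 + 9 * x + y) * (5 + 6 * x + y)))
      = ((9 + 9 * x + y) * ((8 + 9 * x + y) * (5 + 6 * x + y) - 4 * x) * (4 + 6 * x + y) ^ 2)
        / ((8 + 9 * x + y) * (4 + 6 * x + y) ^ 2 * (5 + 6 * x + y)) := by
    field_simp
    ring
  rw [hL, hR]
  exact div_le_div_of_nonneg_right (NUM1_aux x y hx hy) (by positivity)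

end Pool.Agent.H84R2.BW
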