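import Pool.Agent.H84R2.BW.Defs

set_option autoImplicit false

namespace Pool.Agent.H84R2.BW

theorem exp_three_half : Real.exp (3 / 2) ≤ 9 / 2 := by
  have h1 : Real.exp (3 / 2) ^ 2 = Real.exp 1 ^ 3 := by
    rw [← Real.exp_nat_mul, ← Real.exp_nat_mul]
    norm_num
  have h2 : Real.exp 1 ^ 3 ≤ (2.7182818286 : ℝ) ^ 3 :=
    pow_le_pow_left₀ (Real.exp_pos 1).le Real.exp_one_lt_d9.le 3
  have h3 : Real.exp (3 / 2) ^ 2 ≤ (9 / 2 : ℝ) ^ 2 := by
    rw [h1]
    refine h2.trans ?_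
    norm_num
  exact le_of_sq_le_sq h3 (by norm_num)

theorem NUM2 : P_NUM2 := by
  intro D b s hD hb hbD hb2 hs t κ ht hκ
  have ht1 : 14 * D - 1 ≤ t := by rw [ht]; linarith
  have ht13 : 13 ≤ t := by linarith
  have ht0 : 0 < t := by linarith
  have hs0 : 0 < s := by linarith
  have hsD : 17 * D - 1 ≤ s - D := by linarith
  have hsD0 : 0 < s - D := by linarith
  -- b / (s - D) ≤ 1/32
  have hq : b / (s - D) ≤ 1 / 32 := by
    rw [div_le_div_iff₀ hsD0 (by norm_num)]
    rcases hb2 with h | h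
    · rw [h]; linarith
    · linarith
  have hq0 : 0 ≤ b / (s - D) := div_nonneg hb hsD0.le
  have hκ0 : 0 ≤ κ := by rw [hκ]; positivity
  -- κ t ≤ 33/32
  have hκt : κ * t ≤ 33 / 32 := by
    rw [hκ, div_mul_cancel₀ _ ht0.ne']; linarith
  have hκ1 : κ ≤ 1 / 12 := by
    by_contra h
    push Not at h
    nlinarith
  refine ⟨by linarith, ?_, ?_⟩
  · -- exponent
    refine le_trans (Real.exp_le_exp.2 ?_) exp_three_half
    have e1 : (s - 1) / (t - 1) ≤ 4 / 3 := by
      rw [div_le_div_iff₀ (by linarith) (by norm_num)]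
      rw [ht]; nlinarith
    have e2 : 2 * b / (t - 2) ≤ 1 / 8 := by
      rw [div_le_div_iff₀ (by linarith) (by norm_num)]
      rcases hb2 with h | h
      · rw [h]; linarith
      · linarith
    linarith
  · have hd : 0 < 1 - κ := by linarith
    -- D * κ/(1-κ) ≤ 1/11 * ...
    have hDt : D ≤ (t + 1) / 14 := by linarith
    have hDκ : D * (κ / (1 - κ)) ≤ 1 / 10 := by
      rw [mul_div_assoc', div_le_div_iff₀ hd (by norm_num)]
      have : D * κ ≤ (t + 1) / 14 * κ := mul_le_mul_of_nonneg_right hDt hκ0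
      nlinarith
    have hL : s * (1 + κ / (1 - κ) * (D / s)) = s + D * (κ / (1 - κ)) := by
      field_simp
    have hst : 0 < s * t := by positivity
    have hE : (s + 1) * ((9 / 2) * (2 * (D - 1) + b) / (s * t)) ≤ 9 / 10 := by
      rw [mul_div_assoc', div_le_div_iff₀ hst (by norm_num)]
      have h1 : 2 * (D - 1) + b ≤ 5 / 2 * D - 2 := by linarith
      have h2 : (9 / 2) * (2 * (D - 1) + b) ≤ 45 / 56 * (t + 1) - 9 := by linarith
      have h3 : (s + 1) * ((9 / 2) * (2 * (D - 1) + b)) ≤ (s + 1) * (45 / 56 * (t + 1) - 9) :=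
        mul_le_mul_of_nonneg_left h2 (by linarith)
      nlinarith
    rw [hL, mul_sub, mul_one]
    linarith

end Pool.Agent.H84R2.BW
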