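import Pool.Agent.H84R2.BW.Defs

set_option autoImplicit false
set_option linter.unusedSectionVars false

namespace Pool.Agent.H84R2.BW

open Finset Pool.Agent.H862R2.Chrom

/-- an edge `uv` such that every other neighbour of `v` is a neighbour of `u` is good -/
theorem nested_aux (hRED : P_RED) (hINS : P_INS) (hMONO : P_MONO) (V : Type) [Fintype V]
    [DecidableEq V] (G : SimpleGraph V) (u v : V) (huv : G.Adj u v)
    (hN : ∀ w, G.Adj v w → w ≠ u → G.Adj u w) : Good G u v := by
  classical
  have hne : u ≠ v := huv.ne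
  obtain ⟨q, hq⟩ : ∃ q, Fintype.card V = q + 2 := by
    have : 1 < Fintype.card V := Fintype.one_lt_card_iff.2 ⟨u, v, hne⟩
    exact ⟨Fintype.card V - 2, by omega⟩
  refine hRED V G q u v huv hq ?_
  set K := (Finset.univ.erase v).erase u with hK
  have hAA : ∀ k, AA G k K (Nb G univ u ∪ Nb G univ v) = AA G k K (Nb G K u) := by
    intro k
    unfold AA
    refine Finset.sum_congr ?_ fun _ _ => rfl
    ext T
    simp only [Finset.mem_filter, mem_I]
    refine and_congr_right fun hT => ?_
    rw [Finset.disjoint_left, Finset.disjoint_left]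
    constructor
    · intro h a ha ha'
      exact h ha (Finset.mem_union_left _ ((mem_Nb G).2 ⟨mem_univ _, ((mem_Nb G).1 ha').2⟩))
    · intro h a ha ha'
      have haK := hT.1 ha
      have hau : a ≠ u := (Finset.mem_erase.1 haK).1
      rcases Finset.mem_union.1 ha' with h1 | h1
      · exact h ha ((mem_Nb G).2 ⟨haK, ((mem_Nb G).1 h1).2⟩)
      · exact h ha ((mem_Nb G).2 ⟨haK, hN a ((mem_Nb G).1 h1).2 hau⟩)
  rw [hAA, hAA]
  have huK : u ∉ K := by rw [hK]; exact Finset.notMem_erase _ _
  have hins : insert u K = Finset.univ.erase v := by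
    rw [hK]
    exact Finset.insert_erase (Finset.mem_erase.2 ⟨hne, mem_univ _⟩)
  have e1 := hINS V G q K u huK
  have e2 := hINS V G (q + 1) K u huK
  rw [hins] at e1 e2
  push_cast at e2
  have hcast : (q : ℝ) + 1 + 1 = (q : ℝ) + 2 := by ring
  rw [hcast] at e2
  rw [← e1, ← e2]
  rcases (Nat.cast_nonneg (α := ℝ) (cnt G (q + 1) Finset.univ)).eq_or_lt with h0 | hpos
  · rw [← h0, mul_zero]
    positivity
  · have hW : (Finset.univ : Finset V).card ≤ (q + 1) + 1 := by
      rw [Finset.card_univ, hq]
    have := hMONO V G (q + 1) Finset.univ (Finset.univ.erase v) hW hpos (Finset.subset_univ _)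
    have h2 : q + 1 + 1 = q + 2 := rfl
    rw [h2] at this
    rw [mul_comm ((cnt G (q + 1) (Finset.univ.erase v) : ℕ) : ℝ)]
    exact this

end Pool.Agent.H84R2.BW
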