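import Pool.Agent.H84R2.BW.Defs

set_option autoImplicit false

namespace Pool.Agent.H84R2.BW

open Finset Pool.Agent.H862R2.Chrom

theorem POS (h : P_CR) : P_POS := by
  intro V _ _ G D q B U hL hD hB hU
  have key : ∀ W : Finset V, W.card ≤ q → (0 : ℝ) < (cnt G q W : ℝ) := by
    intro W hW
    have h1 := P_pos' G W q (by
      have : (W.card : ℝ) ≤ q := by exact_mod_cast hW
      linarith)
    rwa [P_nat] at h1
  by_cases hc : U.card ≤ q
  · exact key U hc
  · have hc' : B.card < U.card := by omega
    obtain ⟨z, hzU, hzB⟩ := Finset.exists_mem_notMem_of_card_lt_card hc'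
    have h1 := (h V G q (U.erase z) z (Finset.notMem_erase z U)).1
    rw [Finset.insert_erase hzU] at h1
    have h2 := key (U.erase z) (by rw [Finset.card_erase_of_mem hzU]; omega)
    have h3 : (Nb G (U.erase z) z).card ≤ (Nb G Finset.univ z).card := by
      apply Finset.card_le_card
      intro w hw
      simp only [Nb, Finset.mem_filter] at hw ⊢
      exact ⟨Finset.mem_univ _, hw.2⟩
    have h4 := hL z hzB
    have h5 : ((Nb G (U.erase z) z).card : ℝ) < q := by
      exact_mod_cast lt_of_le_of_lt (h3.trans h4) hD
    refine lt_of_lt_of_le ?_ h1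
    exact mul_pos (by linarith) h2

end Pool.Agent.H84R2.BW
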