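import Pool.Agent.H84R2.BW.Defs

set_option autoImplicit false

/-!
Ratio bound at all levels
-/

namespace Pool.Agent.H84R2.BW

open Finset Pool.Agent.H862R2.Chrom

theorem REC (hB : P_BASE) (hS : P_RSTEP) : P_REC := by
  intro V _ _ G D m B q hL h1 h2 hq
  induction q, hq using Nat.le_induction with
  | base =>
    have h := hB V G D m B hL (by omega)
    have e : (((m + 1 : ℕ) : ℝ) + 1 - m) = 2 := by
      push_cast
      ring
    rw [e]
    exact h
  | succ q hq ih =>
    have h := hS V G D m B q hL h1 h2 hq ih
    have e : (((q + 1 : ℕ) : ℝ) + 1 - m) = (q : ℝ) + 2 - m := by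
      push_cast
      ring
    rw [e]
    exact h

end Pool.Agent.H84R2.BW
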