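import Pool.Agent.H84R2.BW.Defs

set_option autoImplicit false
set_option linter.unusedSectionVars false

/-! Task RED of helper84's project (by helper747). -/

namespace Pool.Agent.H84R2.BW

open Finset Pool.Agent.H862R2.Chrom

theorem RED (h : P_CON) : P_RED := by
  classical
  intro V _ _ G q u v hadj hcard hmain
  have e1 : Fintype.card V - 1 = q + 1 := by omega
  unfold Good
  rw [e1, hcard, card_coloring, card_coloring, card_coloring, card_coloring]
  have h1 := h V G q u v hadj
  have h2 := h V G (q + 1) u v hadj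
  have e2 : q + 1 + 1 = q + 2 := rfl
  rw [e2] at h2
  rw [h1, h2]
  have hpos : (0 : ℝ) < (cnt G (q + 2) Finset.univ : ℝ) := by
    rw [← P_nat]
    refine P_pos' G _ _ ?_
    rw [Finset.card_univ, hcard]
    linarith
  have hAA0 : 0 ≤ AA G (q + 1) ((Finset.univ.erase v).erase u)
      (Nb G Finset.univ u ∪ Nb G Finset.univ v) := by
    unfold AA
    exact Finset.sum_nonneg fun T _ => by positivity
  push_cast
  set c1 : ℝ := (cnt G (q + 1) Finset.univ : ℝ)
  set c2 : ℝ := (cnt G (q + 2) Finset.univ : ℝ)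
  set M1 : ℝ := AA G q ((Finset.univ.erase v).erase u)
      (Nb G Finset.univ u ∪ Nb G Finset.univ v)
  set M2 : ℝ := AA G (q + 1) ((Finset.univ.erase v).erase u)
      (Nb G Finset.univ u ∪ Nb G Finset.univ v)
  have hden : 0 < c2 + ((q : ℝ) + 1 + 1) * M2 := by
    have : 0 ≤ ((q : ℝ) + 1 + 1) * M2 := by positivity
    linarith
  rw [div_le_div_iff₀ hpos hden]
  nlinarith [hmain]

end Pool.Agent.H84R2.BW
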