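import Pool.Agent.H84R2.BW.Defs

set_option autoImplicit false

namespace Pool.Agent.H84R2.BW

open Finset Pool.Agent.H862R2.Chrom

theorem RSTEP_AA_empty {V : Type} [Fintype V] [DecidableEq V] (G : SimpleGraph V) (q : ℕ) (H : Finset V) :
    AA G q H ∅ = (cnt G (q + 1) H : ℝ) := by
  rw [← sumT_one G q H, AA]
  apply Finset.sum_congr _ fun _ _ => rfl
  ext T
  simp

theorem RSTEP_num1 (t m b : ℝ) (ht : 2 ≤ t) (hb : 0 ≤ b) (h : 3 * b ≤ m) :
    ((t + m) + b) / t ≤ (t + m + 1) * 2 / (t + 1) - 1 := by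
  have ht0 : 0 < t := by linarith
  have ht1 : 0 < t + 1 := by linarith
  rw [div_le_iff₀ ht0]
  have e5 : ((t + m + 1) * 2 / (t + 1) - 1) * t = ((2 * m + t + 1) * t) / (t + 1) := by
    field_simp
    ring
  rw [e5, le_div_iff₀ ht1]
  have e51 := mul_nonneg hb (by linarith : (0:ℝ) ≤ t - 2)
  have e52 := mul_nonneg (by linarith : (0:ℝ) ≤ m - 3 * b) (by linarith : (0:ℝ) ≤ t - 1)
  nlinarith [e51, e52]

theorem RSTEP_num2 (t m c : ℝ) (ht : 2 ≤ t) (hm : 0 ≤ m) (h : 3 * c ≤ 2 * m) :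
    c / t ≤ (t + m + 1) * 1 / (t + 1) - 1 := by
  have ht0 : 0 < t := by linarith
  have ht1 : 0 < t + 1 := by linarith
  rw [div_le_iff₀ ht0]
  have e5 : ((t + m + 1) * 1 / (t + 1) - 1) * t = (m * t) / (t + 1) := by
    field_simp
    ring
  rw [e5, le_div_iff₀ ht1]
  have e51 := mul_nonneg (by linarith : (0:ℝ) ≤ 2 * m - 3 * c) (by linarith : (0:ℝ) ≤ t + 1)
  have e52 := mul_nonneg hm (by linarith : (0:ℝ) ≤ t - 2)
  nlinarith [e51, e52]

theorem RSTEP (hPOS : P_POS) (hMONO : P_MONO) (hINS : P_INS) (hE1 : P_E1) (hE2 : P_E2)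
    (hUP : P_UP) (hTEL : P_TEL) : P_RSTEP := by
  intro V _ _ G D m B q hB h1 h2 hmq hRB U hU z hz
  have hD : D < q := by omega
  have hBq : B.card ≤ q := by omega
  set b : ℝ := (B.card : ℝ) with hb
  have hb0 : 0 ≤ b := Nat.cast_nonneg _
  set t : ℝ := (q : ℝ) + 1 - m with ht
  have hmqR : (m : ℝ) + 1 ≤ q := by exact_mod_cast hmq
  have ht2 : 2 ≤ t := by rw [ht]; linarith
  have h1R : 3 * (2 * (D : ℝ) + b) ≤ 2 * m := by rw [hb]; exact_mod_cast h1
  have h2R : 3 * b ≤ m := by rw [hb]; exact_mod_cast h2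
  have pos0 : ∀ U : Finset V, U.card ≤ q + 1 → (0 : ℝ) < (cnt G q U : ℝ) := fun U hU =>
    hPOS V G D q B U hB hD hBq hU
  have tel := hTEL V G B q t ht2 hRB pos0
  set H := U.erase z with hH
  have hzH : z ∉ H := Finset.notMem_erase z U
  have hUH : insert z H = U := Finset.insert_erase hz
  have hHc : H.card ≤ q + 1 := by
    rw [hH, Finset.card_erase_of_mem hz]; omega
  set N := Nb G H z with hN
  have hNH : N ⊆ H := fun x hx => ((mem_Nb G).1 hx).1
  have ins0 := hINS V G q H z hzH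
  have ins1 := hINS V G (q + 1) H z hzH
  rw [hUH] at ins0 ins1
  have up := hUP V G q H ∅ N (fun T => wt B T / t) (pos0 H hHc)
    (fun T hT => tel H hHc T ((mem_I G).1 hT).1)
    (fun T hT => hMONO V G q H (H \ T) hHc (pos0 H hHc) Finset.sdiff_subset)
    (Finset.empty_subset _)
  rw [RSTEP_AA_empty, RSTEP_AA_empty] at up
  set Z : ℝ := (cnt G (q + 1) H : ℝ) with hZ
  set Z' : ℝ := (cnt G (q + 1 + 1) H : ℝ) with hZ'
  set A := AA G q H N with hA
  set A' := AA G (q + 1) H N with hA'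
  have hZ0 : 0 ≤ Z := Nat.cast_nonneg _
  have hA0 : 0 ≤ A := Finset.sum_nonneg fun T _ => Nat.cast_nonneg _
  have hA'0 : 0 ≤ A' := Finset.sum_nonneg fun T _ => Nat.cast_nonneg _
  have efil : (I G H).filter (fun T => Disjoint T ∅ ∧ ¬ Disjoint T N) =
      (I G H).filter (fun T => ¬ Disjoint T N) := by
    ext T; simp
  rw [efil] at up
  set R := (I G H).filter (fun T => ¬ Disjoint T N) with hR
  set S1 := ∑ T ∈ R, (cnt G q (H \ T) : ℝ) * (T.card : ℝ) with hS1
  set S2 := ∑ T ∈ R, (cnt G q (H \ T) : ℝ) * ((T ∩ B).card : ℝ) with hS2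
  have hUR : ∑ T ∈ R, (cnt G q (H \ T) : ℝ) * (wt B T / t) = (S1 + S2) / t := by
    rw [hS1, hS2, ← Finset.sum_add_distrib, Finset.sum_div]
    refine Finset.sum_congr rfl fun T _ => ?_
    rw [wt]; ring
  have hUR' : ∑ T ∈ R, (cnt G q (H \ T) : ℝ) * ((fun T => wt B T / t) T) = (S1 + S2) / t := hUR
  rw [hUR'] at up
  have e2 : ((q : ℝ) + 1) * S2 ≤ b * Z := by
    refine le_trans ?_ (hE2 V G q H B)
    apply mul_le_mul_of_nonneg_left _ (by positivity)
    exact Finset.sum_le_sum_of_subset_of_nonneg (Finset.filter_subset _ _)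
      fun T _ _ => mul_nonneg (Nat.cast_nonneg _) (Nat.cast_nonneg _)
  have ht0 : 0 < t := by linarith
  have ht1 : 0 < t + 1 := by linarith
  have hq : (q : ℝ) + 1 = t + m := by rw [ht]; ring
  have etp : ((q + 1 : ℕ) : ℝ) + 1 - m = t + 1 := by rw [ht]; push_cast; ring
  have goal' : ((q : ℝ) + 1) * ((S1 + S2) / t) ≤
      Z * (((q : ℝ) + 1 + 1) * wz B z / (t + 1) - 1) := by
    by_cases hzB : z ∈ B
    · have hw : wz B z = 2 := if_pos hzB
      have e1 : ((q : ℝ) + 1) * S1 ≤ ((q : ℝ) + 1) * Z := by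
        have e3 : ((q : ℝ) + 1) * S1 ≤ (H.card : ℝ) * Z := by
          rw [← sumT_card G q H]
          apply mul_le_mul_of_nonneg_left _ (by positivity)
          exact Finset.sum_le_sum_of_subset_of_nonneg (Finset.filter_subset _ _)
            fun T _ _ => mul_nonneg (Nat.cast_nonneg _) (Nat.cast_nonneg _)
        refine e3.trans (mul_le_mul_of_nonneg_right ?_ hZ0)
        have e31 : (H.card : ℝ) ≤ ((q + 1 : ℕ) : ℝ) := Nat.cast_le.2 hHc
        rw [Nat.cast_add, Nat.cast_one] at e31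
        exact e31
      rw [hw, hq]
      rw [hq] at e1 e2
      have e4 : (t + m) * ((S1 + S2) / t) ≤ ((t + m) + b) / t * Z := by
        rw [mul_div_assoc', div_mul_eq_mul_div]
        apply div_le_div_of_nonneg_right _ ht0.le
        linarith
      refine e4.trans ?_
      rw [mul_comm Z]
      apply mul_le_mul_of_nonneg_right _ hZ0
      exact RSTEP_num1 t m b ht2 hb0 h2R
    · have hw : wz B z = 1 := if_neg hzB
      have hNc : (N.card : ℝ) ≤ D := by
        have h5 : N.card ≤ (Nb G Finset.univ z).card := by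
          apply Finset.card_le_card
          intro x hx
          rw [hN, mem_Nb] at hx
          rw [mem_Nb]
          exact ⟨Finset.mem_univ _, hx.2⟩
        exact_mod_cast h5.trans (hB z hzB)
      have e1 : ((q : ℝ) + 1) * S1 ≤ 2 * D * Z := by
        refine (hE1 V G q H N hHc hNH).trans ?_
        apply mul_le_mul_of_nonneg_right _ hZ0
        linarith
      rw [hw, hq]
      rw [hq] at e1 e2
      have e4 : (t + m) * ((S1 + S2) / t) ≤ (2 * D + b) / t * Z := by
        rw [mul_div_assoc', div_mul_eq_mul_div]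
        apply div_le_div_of_nonneg_right _ ht0.le
        linarith
      refine e4.trans ?_
      rw [mul_comm Z]
      apply mul_le_mul_of_nonneg_right _ hZ0
      exact RSTEP_num2 t m (2 * D + b) ht2 (Nat.cast_nonneg _) h1R
  have e6 : ((q : ℝ) + 2 - m) = t + 1 := by rw [ht]; ring
  rw [e6, ins0, ins1]
  push_cast
  have e7 : A' * (((q : ℝ) + 1) * (Z - (S1 + S2) / t)) ≤ ((q : ℝ) + 1) * (Z' * A) := by
    have := mul_le_mul_of_nonneg_left up (by positivity : (0 : ℝ) ≤ (q : ℝ) + 1)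
    linarith
  have e8 : A' * ((1 - wz B z / (t + 1)) * ((q : ℝ) + 1 + 1) * Z) ≤
      A' * (((q : ℝ) + 1) * (Z - (S1 + S2) / t)) := by
    apply mul_le_mul_of_nonneg_left _ hA'0
    have e9 : (1 - wz B z / (t + 1)) * ((q : ℝ) + 1 + 1) * Z =
        ((q : ℝ) + 1) * Z - Z * (((q : ℝ) + 1 + 1) * wz B z / (t + 1) - 1) := by ring
    rw [e9]
    linarith
  have e10 := e8.trans e7
  calc (1 - wz B z / (t + 1)) * (((q : ℝ) + 1 + 1) * A' * Z) =
      A' * ((1 - wz B z / (t + 1)) * ((q : ℝ) + 1 + 1) * Z) := by ring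
    _ ≤ ((q : ℝ) + 1) * (Z' * A) := e10
    _ = Z' * (((q : ℝ) + 1) * A) := by ring

end Pool.Agent.H84R2.BW
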