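import Pool.Agent.H84R2.BW.Defs

set_option autoImplicit false
set_option linter.unusedSectionVars false

/-! Task TEL of helper84's project (by helper747). -/

namespace Pool.Agent.H84R2.BW

open Finset Pool.Agent.H862R2.Chrom

theorem TEL : P_TEL := by
  classical
  intro V _ _ G B q t ht hRB hpos H hH T
  have ht0 : (0 : ℝ) < t := by linarith
  induction T using Finset.induction_on with
  | empty =>
    intro _
    have : wt B (∅ : Finset V) = 0 := by simp [wt]
    rw [this]
    simp
  | insert z T0 hz ih =>
    intro hsub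
    have hT0 : T0 ⊆ H := fun x hx => hsub (Finset.mem_insert_of_mem hx)
    have hzH : z ∈ H := hsub (Finset.mem_insert_self _ _)
    have ih' := ih hT0
    have hU : (H \ T0).card ≤ q + 1 := (Finset.card_le_card Finset.sdiff_subset).trans hH
    have hzU : z ∈ H \ T0 := Finset.mem_sdiff.2 ⟨hzH, hz⟩
    have hR := hRB (H \ T0) hU z hzU
    have he : H \ insert z T0 = (H \ T0).erase z := by
      ext x
      simp only [Finset.mem_sdiff, Finset.mem_insert, Finset.mem_erase, not_or]
      tauto
    rw [he]
    have hw : wt B (insert z T0) = wt B T0 + wz B z := by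
      unfold wt wz
      rw [Finset.card_insert_of_notMem hz]
      by_cases hzB : z ∈ B
      · rw [Finset.insert_inter_of_mem hzB,
          Finset.card_insert_of_notMem (fun h => hz (Finset.mem_inter.1 h).1), if_pos hzB]
        push_cast; ring
      · rw [Finset.insert_inter_of_notMem hzB, if_neg hzB]
        push_cast; ring
    rw [hw]
    have hb : (0 : ℝ) < (cnt G q (H \ T0) : ℝ) := hpos _ hU
    set A : ℝ := (cnt G (q + 1) H : ℝ) with hA
    set B0 : ℝ := (cnt G q H : ℝ) with hB0
    set a : ℝ := (cnt G (q + 1) (H \ T0) : ℝ)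
    set b : ℝ := (cnt G q (H \ T0) : ℝ)
    set a' : ℝ := (cnt G (q + 1) ((H \ T0).erase z) : ℝ)
    set b' : ℝ := (cnt G q ((H \ T0).erase z) : ℝ) with hb'
    have hA0 : 0 ≤ A := by rw [hA]; positivity
    have hB00 : 0 ≤ B0 := by rw [hB0]; positivity
    have hb'0 : 0 ≤ b' := by rw [hb']; positivity
    have hwz0 : 0 ≤ wz B z / t := by
      apply div_nonneg _ ht0.le
      unfold wz; split_ifs <;> norm_num
    have hwz1 : 0 ≤ 1 - wz B z / t := by
      rw [sub_nonneg, div_le_one ht0]
      unfold wz; split_ifs <;> linarith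
    have hwt0 : 0 ≤ wt B T0 / t := by
      apply div_nonneg _ ht0.le
      unfold wt; positivity
    have h1 : (1 - (wt B T0 + wz B z) / t) ≤ (1 - wt B T0 / t) * (1 - wz B z / t) := by
      have : (1 - wt B T0 / t) * (1 - wz B z / t)
          = 1 - (wt B T0 + wz B z) / t + (wt B T0 / t) * (wz B z / t) := by ring
      rw [this]
      have := mul_nonneg hwt0 hwz0
      linarith
    have h2 : (1 - (wt B T0 + wz B z) / t) * (A * b') * b ≤ a' * B0 * b := by
      calc (1 - (wt B T0 + wz B z) / t) * (A * b') * b
          = (1 - (wt B T0 + wz B z) / t) * ((A * b') * b) := by ring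
        _ ≤ ((1 - wt B T0 / t) * (1 - wz B z / t)) * ((A * b') * b) :=
          mul_le_mul_of_nonneg_right h1 (mul_nonneg (mul_nonneg hA0 hb'0) hb.le)
        _ = ((1 - wz B z / t) * b') * ((1 - wt B T0 / t) * (A * b)) := by ring
        _ ≤ ((1 - wz B z / t) * b') * (a * B0) :=
          mul_le_mul_of_nonneg_left ih' (mul_nonneg hwz1 hb'0)
        _ = ((1 - wz B z / t) * (a * b')) * B0 := by ring
        _ ≤ (a' * b) * B0 := mul_le_mul_of_nonneg_right hR hB00
        _ = a' * B0 * b := by ring
    exact le_of_mul_le_mul_right h2 hb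

end Pool.Agent.H84R2.BW
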