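import Pool.Agent.H84R2.BW.Defs

set_option autoImplicit false

namespace Pool.Agent.H84R2.BW

open Finset Pool.Agent.H862R2.Chrom

theorem UP_split {V : Type} [DecidableEq V] (X : Finset (Finset V)) {S S' : Finset V}
    (hS : S ⊆ S') (f : Finset V → ℝ) :
    ∑ T ∈ X.filter (fun T => Disjoint T S), f T
      = ∑ T ∈ X.filter (fun T => Disjoint T S'), f T
        + ∑ T ∈ X.filter (fun T => Disjoint T S ∧ ¬ Disjoint T S'), f T := by
  rw [← Finset.sum_filter_add_sum_filter_not (X.filter (fun T => Disjoint T S))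
    (fun T => Disjoint T S')]
  congr 1
  · apply Finset.sum_congr _ fun _ _ => rfl
    ext T
    simp only [Finset.mem_filter]
    constructor
    · rintro ⟨⟨h1, h2⟩, h3⟩
      exact ⟨h1, h3⟩
    · rintro ⟨h1, h3⟩
      exact ⟨⟨h1, Finset.disjoint_of_subset_right hS h3⟩, h3⟩
  · apply Finset.sum_congr _ fun _ _ => rfl
    ext T
    simp only [Finset.mem_filter, and_assoc]

theorem UP : P_UP := by
  intro V _ _ G q H S S' u h0 h1 h2 hS
  set n0 : ℝ := (cnt G (q + 1) H : ℝ) with hn0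
  set d0 : ℝ := (cnt G q H : ℝ) with hd0
  have hn : 0 ≤ n0 := Nat.cast_nonneg _
  have sa := UP_split (I G H) hS (fun T => (cnt G q (H \ T) : ℝ))
  have sb := UP_split (I G H) hS (fun T => (cnt G (q + 1) (H \ T) : ℝ))
  have eS : AA G q H S = ∑ T ∈ (I G H).filter (fun T => Disjoint T S), (cnt G q (H \ T) : ℝ) := rfl
  have eS' : AA G q H S' = ∑ T ∈ (I G H).filter (fun T => Disjoint T S'), (cnt G q (H \ T) : ℝ) :=
    rfl
  have fS : AA G (q + 1) H S
      = ∑ T ∈ (I G H).filter (fun T => Disjoint T S), (cnt G (q + 1) (H \ T) : ℝ) := rfl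
  have fS' : AA G (q + 1) H S'
      = ∑ T ∈ (I G H).filter (fun T => Disjoint T S'), (cnt G (q + 1) (H \ T) : ℝ) := rfl
  rw [← eS, ← eS'] at sa
  rw [← fS, ← fS'] at sb
  set R := (I G H).filter (fun T => Disjoint T S ∧ ¬ Disjoint T S') with hR
  have hRI : ∀ T ∈ R, T ∈ I G H := fun T hT => (Finset.mem_filter.1 hT).1
  set Ra := ∑ T ∈ R, (cnt G q (H \ T) : ℝ) with hRa
  set Rb := ∑ T ∈ R, (cnt G (q + 1) (H \ T) : ℝ) with hRb
  set Ru := ∑ T ∈ R, (cnt G q (H \ T) : ℝ) * u T with hRu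
  have g1 : n0 * (Ra - Ru) ≤ Rb * d0 := by
    rw [hRa, hRu, hRb, ← Finset.sum_sub_distrib, Finset.mul_sum, Finset.sum_mul]
    refine Finset.sum_le_sum fun T hT => ?_
    have := h1 T (hRI T hT)
    linarith
  have g2 : AA G (q + 1) H S' * d0 ≤ n0 * AA G q H S' := by
    rw [eS', fS', Finset.mul_sum, Finset.sum_mul]
    exact Finset.sum_le_sum fun T hT => h2 T (Finset.mem_filter.1 hT).1
  have g3 : 0 ≤ AA G q H S' := Finset.sum_nonneg fun T _ => Nat.cast_nonneg _
  have g4 : 0 ≤ AA G (q + 1) H S' := Finset.sum_nonneg fun T _ => Nat.cast_nonneg _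
  have g5 : 0 ≤ Rb := Finset.sum_nonneg fun T _ => Nat.cast_nonneg _
  rw [sa, sb]
  have key : AA G (q + 1) H S' * (Ra - Ru) ≤ Rb * AA G q H S' := by
    rcases le_or_gt 0 (Ra - Ru) with hX | hX
    · have e1 : AA G (q + 1) H S' * d0 * (Ra - Ru) ≤ n0 * AA G q H S' * (Ra - Ru) :=
        mul_le_mul_of_nonneg_right g2 hX
      have e2 : n0 * (Ra - Ru) * AA G q H S' ≤ Rb * d0 * AA G q H S' :=
        mul_le_mul_of_nonneg_right g1 g3
      have e3 : d0 * (AA G (q + 1) H S' * (Ra - Ru)) ≤ d0 * (Rb * AA G q H S') := by linarith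
      exact le_of_mul_le_mul_left e3 h0
    · have e1 : AA G (q + 1) H S' * (Ra - Ru) ≤ 0 :=
        mul_nonpos_of_nonneg_of_nonpos g4 hX.le
      have e2 : 0 ≤ Rb * AA G q H S' := mul_nonneg g5 g3
      linarith
  nlinarith [key]

end Pool.Agent.H84R2.BW
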