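import Pool.Agent.H84R2.BW.Defs

set_option autoImplicit false
set_option linter.unusedSectionVars false

namespace Pool.Agent.H84R2.BW

open Finset Pool.Agent.H862R2.Chrom

theorem XI_pt {V : Type} [Fintype V] [DecidableEq V] (G : SimpleGraph V) {q : ℕ} {H : Finset V}
    {i : V} (hi : i ∈ H) (c : V → ℕ) :
    ((H.erase i).filter (fun l => c l ∈ Av G q H i c)).card + (cols G H i c).card + 1
      ≤ H.card := by
  classical
  have hcard := Finset.card_filter_add_card_filter_not (s := H.erase i)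
    (fun l => c l ∈ Av G q H i c)
  rw [Finset.card_erase_of_mem hi] at hcard
  have hpos : 0 < H.card := Finset.card_pos.2 ⟨i, hi⟩
  have hcov : cols G H i c ⊆
      ((H.erase i).filter (fun l => ¬ c l ∈ Av G q H i c)).image c := by
    intro b hb
    have hb' := hb
    rw [cols, Finset.mem_image] at hb
    obtain ⟨l, hl, rfl⟩ := hb
    rw [mem_Nb] at hl
    rw [Finset.mem_image]
    refine ⟨l, ?_, rfl⟩
    rw [Finset.mem_filter, Finset.mem_erase]
    refine ⟨⟨hl.2.ne', hl.1⟩, fun h => ?_⟩
    rw [Av, Finset.mem_sdiff] at h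
    exact h.2 hb'
  have h1 : (cols G H i c).card
      ≤ ((H.erase i).filter (fun l => ¬ c l ∈ Av G q H i c)).card :=
    (Finset.card_le_card hcov).trans Finset.card_image_le
  omega

theorem XI : P_XI := by
  intro V _ _ G q H i hH hi
  classical
  have h1 : ∑ T ∈ (I G H).filter (fun T => i ∈ T), (cnt G q (H \ T) : ℝ) * (T.card : ℝ)
      = ∑ T ∈ I G H, (cnt G q (H \ T) : ℝ)
          * (((T ∩ ({i} : Finset V)).card : ℝ) * (T.card : ℝ)) := by
    rw [Finset.sum_filter]
    refine Finset.sum_congr rfl fun T _ => ?_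
    split_ifs with h
    · rw [Finset.inter_singleton_of_mem h]; simp
    · rw [Finset.inter_singleton_of_notMem h]; simp
  rw [h1, ← sum_classes G q H (fun T => ((T ∩ ({i} : Finset V)).card : ℝ) * (T.card : ℝ))]
  have h2 : ∀ c ∈ F G (q + 1) H, ∑ a ∈ Finset.Icc 1 (q + 1),
      (((cls c a) ∩ ({i} : Finset V)).card : ℝ) * ((cls c a).card : ℝ)
        = (Yc H i c : ℝ) + 1 := by
    intro c hc
    rw [sum_cls_inter G (Finset.singleton_subset_iff.2 hi) hc
      (fun a => ((cls c a).card : ℝ)), Finset.sum_singleton, card_cls_self G hc hi]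
    push_cast; rfl
  rw [Finset.sum_congr rfl h2, Finset.sum_add_distrib]
  have h3 : ∑ c ∈ F G (q + 1) H, (Yc H i c : ℝ) ≤ ((F G (q + 1) H).card : ℝ) := by
    rw [resample G (q + 1) H i hi (fun c => (Yc H i c : ℝ))]
    have hle : ∀ c ∈ F G (q + 1) H,
        (∑ a ∈ Av G (q + 1) H i c, (Yc H i (Function.update c i a) : ℝ))
          / ((Av G (q + 1) H i c).card : ℝ) ≤ 1 := by
      intro c hc
      rw [sum_Yc_update]
      have h4 := XI_pt G (q := q + 1) hi c
      have h5 : (Finset.Icc 1 (q + 1)).card - (cols G H i c).card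
          ≤ (Av G (q + 1) H i c).card := Finset.le_card_sdiff _ _
      rw [Nat.card_Icc] at h5
      have h6 : 0 < (Av G (q + 1) H i c).card :=
        Finset.card_pos.2 ⟨_, self_mem_Av G hi hc⟩
      rw [div_le_one (by exact_mod_cast h6)]
      have h7 : ((H.erase i).filter (fun l => c l ∈ Av G (q + 1) H i c)).card
          ≤ (Av G (q + 1) H i c).card := by omega
      exact_mod_cast h7
    calc _ ≤ ∑ c ∈ F G (q + 1) H, (1 : ℝ) := Finset.sum_le_sum hle
      _ = _ := by simp
  have h4 : ∑ c ∈ F G (q + 1) H, (1 : ℝ) = ((F G (q + 1) H).card : ℝ) := by simp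
  rw [h4]
  rw [card_F] at h3 ⊢
  linarith

end Pool.Agent.H84R2.BW
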