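import Pool.Agent.H84R2.BW.Defs

set_option autoImplicit false
set_option linter.unusedSectionVars false

/-! Task YB of helper84's project (by helper747). -/

namespace Pool.Agent.H84R2.BW

open Finset Pool.Agent.H862R2.Chrom

theorem YB : P_YB := by
  classical
  intro V _ _ G B q t ht hRB hpos
  have ht1 : (0 : ℝ) < t - 1 := by linarith
  have ht2 : (0 : ℝ) < t - 2 := by linarith
  have ht0 : (0 : ℝ) < t := by linarith
  have key : ∀ H : Finset V, H.card ≤ q + 1 →
      (cnt G (q + 1) H : ℝ) ≤
        (cnt G q H : ℝ) * Real.exp ((H.card : ℝ) / (t - 1)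
          + 2 * ((H ∩ B).card : ℝ) / (t - 2)) := by
    intro H
    induction H using Finset.induction_on with
    | empty =>
      intro _
      rw [cnt_empty, cnt_empty]
      simp
    | insert z H' hz ih =>
      intro hc
      rw [Finset.card_insert_of_notMem hz] at hc
      have ih' := ih (by omega)
      have hb' : (0 : ℝ) < (cnt G q H' : ℝ) := hpos H' (by omega)
      have hb : (0 : ℝ) < (cnt G q (insert z H') : ℝ) :=
        hpos _ (by rw [Finset.card_insert_of_notMem hz]; exact hc)
      have hR := hRB (insert z H') (by rw [Finset.card_insert_of_notMem hz]; exact hc) z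
        (Finset.mem_insert_self _ _)
      rw [Finset.erase_insert hz] at hR
      set a : ℝ := (cnt G (q + 1) (insert z H') : ℝ) with ha
      set b : ℝ := (cnt G q (insert z H') : ℝ) with hbdef
      set a' : ℝ := (cnt G (q + 1) H' : ℝ) with ha'
      set b' : ℝ := (cnt G q H' : ℝ) with hb'def
      set E : ℝ := Real.exp ((H'.card : ℝ) / (t - 1) + 2 * ((H' ∩ B).card : ℝ) / (t - 2)) with hE
      have hE0 : 0 < E := Real.exp_pos _
      have ha0 : 0 ≤ a := by rw [ha]; positivity
      obtain ⟨F, hF1, hF2⟩ : ∃ F : ℝ, 1 ≤ (1 - wz B z / t) * F ∧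
          E * F = Real.exp (((insert z H').card : ℝ) / (t - 1)
            + 2 * ((insert z H' ∩ B).card : ℝ) / (t - 2)) := by
        by_cases hzB : z ∈ B
        · refine ⟨Real.exp (1 / (t - 1) + 2 / (t - 2)), ?_, ?_⟩
          · have h1 : Real.exp (2 / (t - 2)) ≤ Real.exp (1 / (t - 1) + 2 / (t - 2)) := by
              apply Real.exp_le_exp.2
              have : 0 ≤ 1 / (t - 1) := by positivity
              linarith
            have h2 : 2 / (t - 2) + 1 ≤ Real.exp (2 / (t - 2)) := Real.add_one_le_exp _
            have h3 : wz B z = 2 := by simp [wz, hzB]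
            rw [h3]
            have h4 : (0 : ℝ) < 1 - 2 / t := by
              rw [sub_pos, div_lt_one ht0]; exact ht
            have h5 : (1 - 2 / t) * (2 / (t - 2) + 1) = 1 := by
              field_simp
              ring
            calc (1 : ℝ) = (1 - 2 / t) * (2 / (t - 2) + 1) := h5.symm
              _ ≤ _ := mul_le_mul_of_nonneg_left (h2.trans h1) h4.le
          · rw [hE, ← Real.exp_add, Finset.card_insert_of_notMem hz, Finset.insert_inter_of_mem hzB,
              Finset.card_insert_of_notMem (fun h => hz (Finset.mem_inter.1 h).1)]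
            congr 1
            push_cast
            ring
        · refine ⟨Real.exp (1 / (t - 1)), ?_, ?_⟩
          · have h2 : 1 / (t - 1) + 1 ≤ Real.exp (1 / (t - 1)) := Real.add_one_le_exp _
            have h3 : wz B z = 1 := by simp [wz, hzB]
            rw [h3]
            have h4 : (0 : ℝ) < 1 - 1 / t := by
              rw [sub_pos, div_lt_one ht0]; linarith
            have h5 : (1 - 1 / t) * (1 / (t - 1) + 1) = 1 := by
              field_simp
              ring
            calc (1 : ℝ) = (1 - 1 / t) * (1 / (t - 1) + 1) := h5.symm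
              _ ≤ _ := mul_le_mul_of_nonneg_left h2 h4.le
          · rw [hE, ← Real.exp_add, Finset.card_insert_of_notMem hz,
              Finset.insert_inter_of_notMem hzB]
            congr 1
            push_cast
            ring
      rw [← hF2]
      have hF0 : 0 < F := by
        by_contra hcon
        push Not at hcon
        have h1 : 0 ≤ 1 - wz B z / t := by
          rw [sub_nonneg, div_le_one ht0]
          unfold wz; split_ifs <;> linarith
        nlinarith
      have h1 : (1 - wz B z / t) * a * b' ≤ E * b * b' := by
        calc (1 - wz B z / t) * a * b' = (1 - wz B z / t) * (a * b') := by ring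
          _ ≤ a' * b := hR
          _ ≤ (b' * E) * b := mul_le_mul_of_nonneg_right ih' hb.le
          _ = E * b * b' := by ring
      have h2 : (1 - wz B z / t) * a ≤ E * b := le_of_mul_le_mul_right h1 hb'
      calc a = 1 * a := (one_mul a).symm
        _ ≤ ((1 - wz B z / t) * F) * a := mul_le_mul_of_nonneg_right hF1 ha0
        _ = ((1 - wz B z / t) * a) * F := by ring
        _ ≤ (E * b) * F := mul_le_mul_of_nonneg_right h2 hF0.le
        _ = b * (E * F) := by ring
  intro H hH
  refine (key H hH).trans ?_
  refine mul_le_mul_of_nonneg_left ?_ (by positivity)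
  apply Real.exp_le_exp.2
  have h1 : ((H ∩ B).card : ℝ) ≤ (B.card : ℝ) := by
    exact_mod_cast Finset.card_le_card Finset.inter_subset_right
  have h2 : 2 * ((H ∩ B).card : ℝ) / (t - 2) ≤ 2 * (B.card : ℝ) / (t - 2) := by
    apply div_le_div_of_nonneg_right _ ht2.le
    linarith
  linarith

end Pool.Agent.H84R2.BW
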