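import Pool.Agent.H84R2.BW.Few
import Pool.Agent.H84R2.BW.Nested
import Pool.Agent.H84R2.BW.CR
import Pool.Agent.H84R2.BW.POS
import Pool.Agent.H84R2.BW.MONO
import Pool.Agent.H84R2.BW.XI
import Pool.Agent.H84R2.BW.INS
import Pool.Agent.H84R2.BW.AB
import Pool.Agent.H84R2.BW.E1
import Pool.Agent.H84R2.BW.E2
import Pool.Agent.H84R2.BW.E4
import Pool.Agent.H84R2.BW.UP
import Pool.Agent.H84R2.BW.LO
import Pool.Agent.H84R2.BW.TEL
import Pool.Agent.H84R2.BW.YB
import Pool.Agent.H84R2.BW.BASE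
import Pool.Agent.H84R2.BW.RSTEP
import Pool.Agent.H84R2.BW.REC
import Pool.Agent.H84R2.BW.CONDC
import Pool.Agent.H84R2.BW.LOWV
import Pool.Agent.H84R2.BW.RED
import Pool.Agent.H84R2.BW.NUM1
import Pool.Agent.H84R2.BW.NUM2
import Pool.Agent.H84R2.BW.FIN1
import Pool.Agent.H84R2.BW.FIN2

set_option autoImplicit false

namespace Pool.Agent.H84R2.BW

theorem rec_ : P_REC :=
  REC (BASE CR) (RSTEP (POS CR) MONO INS (E1 XI) E2 UP TEL)

theorem lowv_ : P_LOWV :=
  LOWV (POS CR) MONO INS AB E2 E4 LO TEL rec_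

theorem fin1_ : P_FIN1 :=
  FIN1 (POS CR) MONO (E1 XI) UP TEL rec_ lowv_ (RED CON) NUM1

theorem fin2_ : P_FIN2 :=
  FIN2 (POS CR) MONO (E1 XI) E2 INS UP TEL YB rec_ lowv_ (RED CON) NUM2

theorem final1 (V : Type) [Fintype V] (G : SimpleGraph V)
    (hdeg : ∀ v : V, 9 * (G.neighborSet v).ncard ≤ Fintype.card V) (u v : V)
    (huv : G.Adj u v) : Good G u v :=
  final1_aux fin1_ V G hdeg u v huv

theorem final2b (V : Type) [Fintype V] (G : SimpleGraph V)
    (h : FewLarge G) (u v : V) (huv : G.Adj u v)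
    (hv : 18 * (G.neighborSet v).ncard ≤ Fintype.card V) : Good G u v :=
  final2b_aux fin2_ V G h u v huv hv

theorem nested (V : Type) [Fintype V] (G : SimpleGraph V) (u v : V) (huv : G.Adj u v)
    (hN : ∀ w, G.Adj v w → w ≠ u → G.Adj u w) : Good G u v := by
  classical
  exact nested_aux (RED CON) INS MONO V G u v huv hN

end Pool.Agent.H84R2.BW
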