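import Pool.Agent.H84R2.BW.Defs

set_option autoImplicit false
set_option linter.unusedSectionVars false

/-! Task BASE of helper84's project (by helper747). -/

namespace Pool.Agent.H84R2.BW

open Finset Pool.Agent.H862R2.Chrom

theorem BASE (h : P_CR) : P_BASE := by
  classical
  intro V _ _ G D m B hlow hD U hU z hz
  have hnn : (0 : ℝ) ≤ (cnt G (m + 1 + 1) (U.erase z) : ℝ) * (cnt G (m + 1) U : ℝ) := by
    positivity
  by_cases hzB : z ∈ B
  · have : wz B z = 2 := by simp [wz, hzB]
    rw [this]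
    simpa using hnn
  · have hw : wz B z = 1 := by simp [wz, hzB]
    rw [hw]
    have hzU : z ∉ U.erase z := Finset.notMem_erase z U
    have h1 := (h V G (m + 1 + 1) (U.erase z) z hzU).2
    have h2 := (h V G (m + 1) (U.erase z) z hzU).1
    rw [Finset.insert_erase hz] at h1 h2
    have hNb : (Nb G (U.erase z) z).card ≤ D := by
      refine le_trans (Finset.card_le_card ?_) (hlow z hzB)
      intro x hx
      rw [mem_Nb] at hx ⊢
      exact ⟨Finset.mem_univ _, hx.2⟩
    have hNb' : ((Nb G (U.erase z) z).card : ℝ) ≤ (D : ℝ) := by exact_mod_cast hNb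
    have hD' : 2 * (D : ℝ) ≤ (m : ℝ) := by exact_mod_cast hD
    set a : ℝ := (cnt G (m + 1 + 1) U : ℝ)
    set b : ℝ := (cnt G (m + 1) U : ℝ)
    set a' : ℝ := (cnt G (m + 1 + 1) (U.erase z) : ℝ) with ha'
    set b' : ℝ := (cnt G (m + 1) (U.erase z) : ℝ) with hb'
    have ha'0 : 0 ≤ a' := by rw [ha']; positivity
    have hb'0 : 0 ≤ b' := by rw [hb']; positivity
    push_cast at h1 h2
    have h3 : ((m : ℝ) + 1 - D) * b' ≤ b := by
      refine le_trans ?_ h2
      exact mul_le_mul_of_nonneg_right (by linarith) hb'0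
    calc (1 - 1 / 2) * (a * b') = (1 / 2) * (a * b') := by norm_num
      _ ≤ (1 / 2) * ((((m : ℝ) + 1 + 1) * a') * b') := by
        refine mul_le_mul_of_nonneg_left ?_ (by norm_num)
        exact mul_le_mul_of_nonneg_right h1 hb'0
      _ = (((m : ℝ) + 1 + 1) / 2) * (a' * b') := by ring
      _ ≤ ((m : ℝ) + 1 - D) * (a' * b') := by
        refine mul_le_mul_of_nonneg_right ?_ (mul_nonneg ha'0 hb'0)
        linarith
      _ = a' * (((m : ℝ) + 1 - D) * b') := by ring
      _ ≤ a' * b := mul_le_mul_of_nonneg_left h3 ha'0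

end Pool.Agent.H84R2.BW
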