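import Pool.Agent.H84R2.BW.Defs

set_option autoImplicit false
set_option linter.unusedSectionVars false

namespace Pool.Agent.H84R2.BW

open Finset Pool.Agent.H862R2.Chrom

theorem COR_sum {V : Type} [Fintype V] [DecidableEq V] (G : SimpleGraph V) :
    ∑ v : V, (Nb G Finset.univ v).card = 2 * G.edgeSet.ncard := by
  classical
  have h1 := G.sum_degrees_eq_twice_card_edges
  have h2 : G.edgeSet.ncard = G.edgeFinset.card := by
    rw [← SimpleGraph.coe_edgeFinset, Set.ncard_coe_finset]
  rw [h2, ← h1]
  refine Finset.sum_congr rfl fun v _ => ?_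
  rw [← SimpleGraph.card_neighborFinset_eq_degree]
  congr 1
  ext w
  rw [mem_Nb, SimpleGraph.mem_neighborFinset]
  simp

theorem COR (h : P_FIN2) : P_COR := by
  intro V _ _ G hne hE
  classical
  set n := Fintype.card V with hn
  set D := n / 18 with hD
  set B : Finset V := Finset.univ.filter (fun z => D < (Nb G Finset.univ z).card) with hB
  have hDn : 18 * D ≤ n := Nat.mul_div_le n 18
  have hnD : n < 18 * (D + 1) := by omega
  have hlow : LowOut G D B := by
    intro z hz
    rw [hB, Finset.mem_filter] at hz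
    by_contra hlt
    exact hz ⟨Finset.mem_univ z, by omega⟩
  have hBc : 2 * B.card ≤ D := by
    by_contra hlt
    push Not at hlt
    have h1 : B.card * (D + 1) ≤ 2 * G.edgeSet.ncard := by
      rw [← COR_sum G]
      calc B.card * (D + 1) = ∑ v ∈ B, (D + 1) := by rw [Finset.sum_const, smul_eq_mul]
        _ ≤ ∑ v ∈ B, (Nb G Finset.univ v).card := by
          refine Finset.sum_le_sum fun v hv => ?_
          rw [hB, Finset.mem_filter] at hv
          exact hv.2
        _ ≤ ∑ v : V, (Nb G Finset.univ v).card :=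
          Finset.sum_le_sum_of_subset (Finset.subset_univ B)
    have h2 : (D + 1) * (D + 1) ≤ (2 * B.card) * (D + 1) :=
      Nat.mul_le_mul_right _ hlt
    have h3 : n * n < (18 * (D + 1)) * (18 * (D + 1)) := Nat.mul_self_lt_mul_self hnD
    nlinarith
  obtain ⟨e, he⟩ := hne
  induction e using Sym2.ind with
  | _ x y =>
    rw [SimpleGraph.mem_edgeSet] at he
    by_cases hx : x ∈ B
    · rw [hB, Finset.mem_filter] at hx
      have hBlt : B.card < (Nb G Finset.univ x).card := by omega
      obtain ⟨v, hv, hvB⟩ := Finset.exists_mem_notMem_of_card_lt_card hBlt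
      rw [mem_Nb] at hv
      exact ⟨x, v, hv.2, h V G D B hlow hBc hDn x v hv.2 (hlow v hvB)⟩
    · exact ⟨y, x, he.symm, h V G D B hlow hBc hDn y x he.symm (hlow x hx)⟩

end Pool.Agent.H84R2.BW
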