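import Pool.Agent.H862R2.ChromRatio

set_option autoImplicit false
set_option linter.unusedSectionVars false
set_option linter.unusedVariables false

/-!
Bartels-Welsh edge deletion ratio (MP_36ff57_co): definitions and the list of tasks (Props).
`cnt G q W` = number of proper `q`-colourings of `G[W]` (helper862), `I G W` = independent subsets
of `W`, `Nb G W v` = neighbours of `v` in `W`.
-/

namespace Pool.Agent.H84R2.BW

open Finset Pool.Agent.H862R2.Chrom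

/-- `A(S) = ∑ cnt q (H \ T)` over the independent `T ⊆ H` which are disjoint from `S`. -/
noncomputable def AA {V : Type} [DecidableEq V] (G : SimpleGraph V) (q : ℕ) (H S : Finset V) : ℝ :=
  ∑ T ∈ (I G H).filter (fun T => Disjoint T S), (cnt G q (H \ T) : ℝ)

/-- the weight of a set: vertices of `B` count twice -/
noncomputable def wt {V : Type} [DecidableEq V] (B T : Finset V) : ℝ :=
  (T.card : ℝ) + ((T ∩ B).card : ℝ)

/-- the weight of a vertex -/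
noncomputable def wz {V : Type} [DecidableEq V] (B : Finset V) (z : V) : ℝ :=
  if z ∈ B then 2 else 1

/-- all vertices outside `B` have degree at most `D` -/
def LowOut {V : Type} [DecidableEq V] [Fintype V] (G : SimpleGraph V) (D : ℕ) (B : Finset V) :
    Prop := ∀ z, z ∉ B → (Nb G Finset.univ z).card ≤ D

/-- ratio bound at level `q` with parameter `t` -/
def RB {V : Type} [DecidableEq V] (G : SimpleGraph V) (B : Finset V) (q : ℕ) (t : ℝ) : Prop :=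
  ∀ U : Finset V, U.card ≤ q + 1 → ∀ z ∈ U,
    (1 - wz B z / t) * ((cnt G (q + 1) U : ℝ) * (cnt G q (U.erase z) : ℝ))
      ≤ (cnt G (q + 1) (U.erase z) : ℝ) * (cnt G q U : ℝ)

/-- CR: crude bounds for one more vertex -/
def P_CR : Prop := ∀ (V : Type) [Fintype V] [DecidableEq V] (G : SimpleGraph V) (q : ℕ)
    (H : Finset V) (v : V), v ∉ H →
    ((q : ℝ) - ((Nb G H v).card : ℝ)) * (cnt G q H : ℝ) ≤ (cnt G q (insert v H) : ℝ) ∧
    (cnt G q (insert v H) : ℝ) ≤ (q : ℝ) * (cnt G q H : ℝ)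

/-- POS: positivity -/
def P_POS : Prop := ∀ (V : Type) [Fintype V] [DecidableEq V] (G : SimpleGraph V) (D q : ℕ)
    (B U : Finset V), LowOut G D B → D < q → B.card ≤ q → U.card ≤ q + 1 →
    (0 : ℝ) < (cnt G q U : ℝ)

/-- MONO: monotonicity of the ratio, including the lowest level -/
def P_MONO : Prop := ∀ (V : Type) [Fintype V] [DecidableEq V] (G : SimpleGraph V) (q : ℕ)
    (W U : Finset V), W.card ≤ q + 1 → (0 : ℝ) < (cnt G q W : ℝ) → U ⊆ W →
    (cnt G (q + 1) U : ℝ) * (cnt G q W : ℝ) ≤ (cnt G (q + 1) W : ℝ) * (cnt G q U : ℝ)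

/-- XI: the class of `i` has expected size at most 2 -/
def P_XI : Prop := ∀ (V : Type) [Fintype V] [DecidableEq V] (G : SimpleGraph V) (q : ℕ)
    (H : Finset V) (i : V), H.card ≤ q + 1 → i ∈ H →
    ((q : ℝ) + 1) * ∑ T ∈ (I G H).filter (fun T => i ∈ T), (cnt G q (H \ T) : ℝ) * (T.card : ℝ)
      ≤ 2 * (cnt G (q + 1) H : ℝ)

/-- INS: insertion formula -/
def P_INS : Prop := ∀ (V : Type) [Fintype V] [DecidableEq V] (G : SimpleGraph V) (q : ℕ)
    (H : Finset V) (v : V), v ∉ H →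
    (cnt G (q + 1) (insert v H) : ℝ) = ((q : ℝ) + 1) * AA G q H (Nb G H v)

/-- AB: few classes meet `N` -/
def P_AB : Prop := ∀ (V : Type) [Fintype V] [DecidableEq V] (G : SimpleGraph V) (q : ℕ)
    (H N : Finset V), N ⊆ H →
    ((q : ℝ) + 1) * ((cnt G (q + 1) H : ℝ) - AA G q H N) ≤ (N.card : ℝ) * (cnt G (q + 1) H : ℝ)

/-- E1: sizes of the classes meeting `N` -/
def P_E1 : Prop := ∀ (V : Type) [Fintype V] [DecidableEq V] (G : SimpleGraph V) (q : ℕ)
    (H N : Finset V), H.card ≤ q + 1 → N ⊆ H →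
    ((q : ℝ) + 1) * ∑ T ∈ (I G H).filter (fun T => ¬ Disjoint T N),
        (cnt G q (H \ T) : ℝ) * (T.card : ℝ)
      ≤ 2 * (N.card : ℝ) * (cnt G (q + 1) H : ℝ)

/-- E2 -/
def P_E2 : Prop := ∀ (V : Type) [Fintype V] [DecidableEq V] (G : SimpleGraph V) (q : ℕ)
    (H B : Finset V),
    ((q : ℝ) + 1) * ∑ T ∈ I G H, (cnt G q (H \ T) : ℝ) * ((T ∩ B).card : ℝ)
      ≤ (B.card : ℝ) * (cnt G (q + 1) H : ℝ)

/-- E4: sizes of the classes avoiding `N` -/
def P_E4 : Prop := ∀ (V : Type) [Fintype V] [DecidableEq V] (G : SimpleGraph V) (q : ℕ)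
    (H N : Finset V), N ⊆ H →
    ((q : ℝ) + 1) * ∑ T ∈ (I G H).filter (fun T => Disjoint T N),
        (cnt G q (H \ T) : ℝ) * (T.card : ℝ)
      ≤ ((H.card : ℝ) - (N.card : ℝ)) * (cnt G (q + 1) H : ℝ)

/-- UP: relative upper bound (abstract) -/
def P_UP : Prop := ∀ (V : Type) [Fintype V] [DecidableEq V] (G : SimpleGraph V) (q : ℕ)
    (H S S' : Finset V) (u : Finset V → ℝ), (0 : ℝ) < (cnt G q H : ℝ) →
    (∀ T ∈ I G H, (1 - u T) * ((cnt G (q + 1) H : ℝ) * (cnt G q (H \ T) : ℝ))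
      ≤ (cnt G (q + 1) (H \ T) : ℝ) * (cnt G q H : ℝ)) →
    (∀ T ∈ I G H, (cnt G (q + 1) (H \ T) : ℝ) * (cnt G q H : ℝ)
      ≤ (cnt G (q + 1) H : ℝ) * (cnt G q (H \ T) : ℝ)) →
    S ⊆ S' →
    AA G (q + 1) H S' * (AA G q H S
        - ∑ T ∈ (I G H).filter (fun T => Disjoint T S ∧ ¬ Disjoint T S'),
            (cnt G q (H \ T) : ℝ) * u T)
      ≤ AA G (q + 1) H S * AA G q H S'

/-- LO: lower bound (abstract) -/
def P_LO : Prop := ∀ (V : Type) [Fintype V] [DecidableEq V] (G : SimpleGraph V) (q : ℕ)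
    (H N : Finset V) (u : Finset V → ℝ) (κ : ℝ), (0 : ℝ) < (cnt G q H : ℝ) → 0 ≤ κ → κ ≤ 1 →
    (∀ T ∈ I G H, (1 - u T) * ((cnt G (q + 1) H : ℝ) * (cnt G q (H \ T) : ℝ))
      ≤ (cnt G (q + 1) (H \ T) : ℝ) * (cnt G q H : ℝ)) →
    (∀ T ∈ I G H, (cnt G (q + 1) (H \ T) : ℝ) * (cnt G q H : ℝ)
      ≤ (cnt G (q + 1) H : ℝ) * (cnt G q (H \ T) : ℝ)) →
    ∑ T ∈ (I G H).filter (fun T => Disjoint T N), (cnt G q (H \ T) : ℝ) * u T
      ≤ κ * AA G q H N →
    (1 - κ) * ((cnt G (q + 2) H : ℝ) * AA G q H N)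
      ≤ AA G (q + 1) H N * ((cnt G (q + 1) H : ℝ) - κ * AA G q H N)

/-- TEL: telescoping the ratio bound -/
def P_TEL : Prop := ∀ (V : Type) [Fintype V] [DecidableEq V] (G : SimpleGraph V)
    (B : Finset V) (q : ℕ) (t : ℝ), 2 ≤ t → RB G B q t →
    (∀ U : Finset V, U.card ≤ q + 1 → (0 : ℝ) < (cnt G q U : ℝ)) →
    ∀ H : Finset V, H.card ≤ q + 1 → ∀ T ⊆ H,
      (1 - wt B T / t) * ((cnt G (q + 1) H : ℝ) * (cnt G q (H \ T) : ℝ))
        ≤ (cnt G (q + 1) (H \ T) : ℝ) * (cnt G q H : ℝ)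

/-- YB: bound for the ratio itself -/
def P_YB : Prop := ∀ (V : Type) [Fintype V] [DecidableEq V] (G : SimpleGraph V)
    (B : Finset V) (q : ℕ) (t : ℝ), 2 < t → RB G B q t →
    (∀ U : Finset V, U.card ≤ q + 1 → (0 : ℝ) < (cnt G q U : ℝ)) →
    ∀ H : Finset V, H.card ≤ q + 1 →
      (cnt G (q + 1) H : ℝ) ≤
        (cnt G q H : ℝ) * Real.exp ((H.card : ℝ) / (t - 1) + 2 * (B.card : ℝ) / (t - 2))

/-- BASE: the ratio bound at the first level -/
def P_BASE : Prop := ∀ (V : Type) [Fintype V] [DecidableEq V] (G : SimpleGraph V)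
    (D m : ℕ) (B : Finset V), LowOut G D B → 2 * D ≤ m → RB G B (m + 1) 2

/-- RSTEP: one step of the recursion, `t = q + 1 - m` -/
def P_RSTEP : Prop := ∀ (V : Type) [Fintype V] [DecidableEq V] (G : SimpleGraph V)
    (D m : ℕ) (B : Finset V) (q : ℕ), LowOut G D B → 3 * (2 * D + B.card) ≤ 2 * m →
    3 * B.card ≤ m → m + 1 ≤ q → RB G B q ((q : ℝ) + 1 - m) → RB G B (q + 1) ((q : ℝ) + 2 - m)

/-- REC: the ratio bound at all levels -/
def P_REC : Prop := ∀ (V : Type) [Fintype V] [DecidableEq V] (G : SimpleGraph V)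
    (D m : ℕ) (B : Finset V) (q : ℕ), LowOut G D B → 3 * (2 * D + B.card) ≤ 2 * m →
    3 * B.card ≤ m → m + 1 ≤ q → RB G B q ((q : ℝ) + 1 - m)

/-- CON: deletion-contraction for the edge `uv`, as a class sum -/
def P_CON : Prop := ∀ (V : Type) [Fintype V] [DecidableEq V] (G : SimpleGraph V) (q : ℕ)
    (u v : V), G.Adj u v →
    (cnt (G.deleteEdges {s(u, v)}) (q + 1) Finset.univ : ℝ)
      = (cnt G (q + 1) Finset.univ : ℝ)
        + ((q : ℝ) + 1) * AA G q ((Finset.univ.erase v).erase u)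
            (Nb G Finset.univ u ∪ Nb G Finset.univ v)

/-- LOWV: lower bound for the effect of a vertex `v` outside `B` (`t = q + 1 - m`) -/
def P_LOWV : Prop := ∀ (V : Type) [Fintype V] [DecidableEq V] (G : SimpleGraph V)
    (D m : ℕ) (B : Finset V) (q : ℕ) (H : Finset V) (v : V), LowOut G D B →
    3 * (2 * D + B.card) ≤ 2 * m → 3 * B.card ≤ m → m + 1 ≤ q → v ∉ H → H.card ≤ q + 1 →
    ∀ d : ℕ, (Nb G H v).card ≤ d → d ≤ D →
    ∀ κ : ℝ, κ = (1 + (B.card : ℝ) / ((q : ℝ) + 1 - d)) / ((q : ℝ) + 1 - m) → κ < 1 →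
      ((q : ℝ) + 2) * ((cnt G (q + 2) H : ℝ) * (cnt G (q + 1) (insert v H) : ℝ))
        ≤ ((q : ℝ) + 1) * (1 + κ / (1 - κ) * ((d : ℝ) / ((q : ℝ) + 1)))
          * ((cnt G (q + 2) (insert v H) : ℝ) * (cnt G (q + 1) H : ℝ))

/-- the inequality of the problem for the edge `uv` -/
def Good {V : Type} [Fintype V] (G : SimpleGraph V) (u v : V) : Prop :=
  (Nat.card (G.Coloring (Fin (Fintype.card V - 1))) : ℝ) /
      (Nat.card (G.Coloring (Fin (Fintype.card V))) : ℝ) ≤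
    (Nat.card ((G.deleteEdges {s(u, v)}).Coloring (Fin (Fintype.card V - 1))) : ℝ) /
      (Nat.card ((G.deleteEdges {s(u, v)}).Coloring (Fin (Fintype.card V))) : ℝ)

/-- RED: reduction of `Good` to the class sums, `card V = q + 2` -/
def P_RED : Prop := ∀ (V : Type) [Fintype V] [DecidableEq V] (G : SimpleGraph V) (q : ℕ)
    (u v : V), G.Adj u v → Fintype.card V = q + 2 →
    ((q : ℝ) + 2) * AA G (q + 1) ((Finset.univ.erase v).erase u)
          (Nb G Finset.univ u ∪ Nb G Finset.univ v) * (cnt G (q + 1) Finset.univ : ℝ)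
      ≤ ((q : ℝ) + 1) * AA G q ((Finset.univ.erase v).erase u)
          (Nb G Finset.univ u ∪ Nb G Finset.univ v) * (cnt G (q + 2) Finset.univ : ℝ) →
    Good G u v

/-- NUM1: numerical inequality of case 1 (`s = q + 1 ≥ 9 D - 1`, `w = s - 3 D - 1`) -/
def P_NUM1 : Prop := ∀ (D s : ℝ), 1 ≤ D → 9 * D - 1 ≤ s →
    s * (1 + (1 / (s - 3 * D - 1)) * ((D - 1) / s)) * (1 + (1 / (s - 3 * D - 1)) * (D / s))
      ≤ (s + 1) * (1 - 4 * (D - 1) / (s * (s - 3 * D)))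

/-- NUM2: numerical inequality of case 2 (`s = q + 1 ≥ 18 D - 1`, `m = 3 D + 2 b`, `t = s - m`) -/
def P_NUM2 : Prop := ∀ (D b s : ℝ), 1 ≤ D → 0 ≤ b → 2 * b ≤ D → (b = 0 ∨ 2 ≤ D) →
    18 * D - 1 ≤ s →
    ∀ t κ : ℝ, t = s - (3 * D + 2 * b) → κ = (1 + b / (s - D)) / t →
    κ < 1 ∧ Real.exp ((s - 1) / (t - 1) + 2 * b / (t - 2)) ≤ 9 / 2 ∧
    s * (1 + κ / (1 - κ) * (D / s)) ≤ (s + 1) * (1 - (9 / 2) * (2 * (D - 1) + b) / (s * t))

/-- FIN1: maximum degree at most `n/9` -/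
def P_FIN1 : Prop := ∀ (V : Type) [Fintype V] [DecidableEq V] (G : SimpleGraph V) (D : ℕ),
    (∀ z, (Nb G Finset.univ z).card ≤ D) → 9 * D ≤ Fintype.card V →
    ∀ u v, G.Adj u v → Good G u v

/-- FIN2: few vertices of degree larger than `D ≤ n/18` -/
def P_FIN2 : Prop := ∀ (V : Type) [Fintype V] [DecidableEq V] (G : SimpleGraph V) (D : ℕ)
    (B : Finset V), LowOut G D B → 2 * B.card ≤ D → 18 * D ≤ Fintype.card V →
    ∀ u v, G.Adj u v → (Nb G Finset.univ v).card ≤ D → Good G u v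

/-- COR: at most `n^2/1296` edges -/
def P_COR : Prop := ∀ (V : Type) [Fintype V] [DecidableEq V] (G : SimpleGraph V),
    G.edgeSet.Nonempty → 1296 * G.edgeSet.ncard ≤ (Fintype.card V) ^ 2 →
    ∃ u v, G.Adj u v ∧ Good G u v

end Pool.Agent.H84R2.BW
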