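import Pool.Agent.H84R2.BW.COR

set_option autoImplicit false
set_option linter.unusedSectionVars false

namespace Pool.Agent.H84R2.BW

open Finset Pool.Agent.H862R2.Chrom

theorem Nb_ncard {V : Type} [Fintype V] [DecidableEq V] (G : SimpleGraph V) (v : V) :
    (Nb G Finset.univ v).card = (G.neighborSet v).ncard := by
  classical
  rw [← Set.ncard_coe_finset]
  congr 1
  ext w
  rw [Finset.mem_coe, mem_Nb, SimpleGraph.mem_neighborSet]
  simp

/-- the number of vertices of degree larger than `n / 18` is at most `n / 36` -/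
def FewLarge {V : Type} [Fintype V] (G : SimpleGraph V) : Prop :=
  36 * {v : V | Fintype.card V < 18 * (G.neighborSet v).ncard}.ncard ≤ Fintype.card V

theorem fewLarge_of_edges {V : Type} [Fintype V] (G : SimpleGraph V)
    (hE : 1296 * G.edgeSet.ncard ≤ Fintype.card V ^ 2) : FewLarge G := by
  classical
  unfold FewLarge
  set n := Fintype.card V with hn
  set B : Finset V := Finset.univ.filter (fun z => n < 18 * (G.neighborSet z).ncard) with hB
  have hBc : {v : V | n < 18 * (G.neighborSet v).ncard}.ncard = B.card := by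
    rw [← Set.ncard_coe_finset]
    congr 1
    ext v
    simp [hB]
  rw [hBc]
  by_contra hlt
  push Not at hlt
  have h1 : B.card * n ≤ 36 * G.edgeSet.ncard := by
    have h2 : ∑ v : V, (G.neighborSet v).ncard = 2 * G.edgeSet.ncard := by
      rw [← COR_sum G]
      exact Finset.sum_congr rfl fun v _ => (Nb_ncard G v).symm
    calc B.card * n = ∑ v ∈ B, n := by rw [Finset.sum_const, smul_eq_mul]
      _ ≤ ∑ v ∈ B, 18 * (G.neighborSet v).ncard := by
        refine Finset.sum_le_sum fun v hv => ?_
        rw [hB, Finset.mem_filter] at hv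
        exact hv.2.le
      _ ≤ ∑ v : V, 18 * (G.neighborSet v).ncard :=
        Finset.sum_le_sum_of_subset (Finset.subset_univ B)
      _ = 36 * G.edgeSet.ncard := by rw [← Finset.mul_sum, h2]; ring
  rcases Nat.eq_zero_or_pos n with h0 | hpos
  · have : B.card ≤ n := by rw [hn, ← Finset.card_univ]; exact Finset.card_le_card (Finset.subset_univ B)
    omega
  · have h3 : n * n < (36 * B.card) * n := Nat.mul_lt_mul_of_pos_right hlt hpos
    nlinarith

theorem few {V : Type} [Fintype V] [DecidableEq V] (G : SimpleGraph V) (h : FewLarge G) :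
    ∃ B : Finset V, LowOut G (Fintype.card V / 18) B ∧ 2 * B.card ≤ Fintype.card V / 18 ∧
      ∀ z, z ∈ B ↔ Fintype.card V < 18 * (G.neighborSet z).ncard := by
  classical
  unfold FewLarge at h
  refine ⟨Finset.univ.filter (fun z => Fintype.card V < 18 * (G.neighborSet z).ncard), ?_, ?_, ?_⟩
  · intro z hz
    rw [Finset.mem_filter] at hz
    rw [Nb_ncard]
    by_contra hlt
    exact hz ⟨Finset.mem_univ z, by omega⟩
  · have hBc : {v : V | Fintype.card V < 18 * (G.neighborSet v).ncard}.ncard
        = (Finset.univ.filter (fun z : V => Fintype.card V < 18 * (G.neighborSet z).ncard)).card := by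
      rw [← Set.ncard_coe_finset]
      congr 1
      ext v
      simp
    rw [hBc] at h
    omega
  · intro z
    simp

theorem final2a (V : Type) [Fintype V] (G : SimpleGraph V) (h : FewLarge G)
    (hne : G.edgeSet.Nonempty) :
    ∃ e ∈ G.edgeSet, ∃ v ∈ e, 18 * (G.neighborSet v).ncard ≤ Fintype.card V := by
  classical
  obtain ⟨B, hlow, hBc, hB⟩ := few G h
  obtain ⟨e, he⟩ := hne
  have hlow' : ∀ v, v ∉ B → 18 * (G.neighborSet v).ncard ≤ Fintype.card V := by
    intro v hv
    by_contra hlt
    exact hv ((hB v).2 (by omega))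
  induction e using Sym2.ind with
  | _ x y =>
    by_cases hx : x ∈ B
    · rw [SimpleGraph.mem_edgeSet] at he
      have hx' := (hB x).1 hx
      rw [← Nb_ncard] at hx'
      have hBlt : B.card < (Nb G Finset.univ x).card := by omega
      obtain ⟨v, hv, hvB⟩ := Finset.exists_mem_notMem_of_card_lt_card hBlt
      rw [mem_Nb] at hv
      exact ⟨s(x, v), by rw [SimpleGraph.mem_edgeSet]; exact hv.2, v, by simp, hlow' v hvB⟩
    · exact ⟨s(x, y), he, x, by simp, hlow' x hx⟩

theorem final2b_aux (hF : P_FIN2) (V : Type) [Fintype V] (G : SimpleGraph V)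
    (h : FewLarge G) (u v : V) (huv : G.Adj u v)
    (hv : 18 * (G.neighborSet v).ncard ≤ Fintype.card V) : Good G u v := by
  classical
  obtain ⟨B, hlow, hBc, hB⟩ := few G h
  refine hF V G (Fintype.card V / 18) B hlow hBc (Nat.mul_div_le _ 18) u v huv ?_
  rw [Nb_ncard]
  omega

theorem final1_aux (h : P_FIN1) (V : Type) [Fintype V] (G : SimpleGraph V)
    (hdeg : ∀ v : V, 9 * (G.neighborSet v).ncard ≤ Fintype.card V) (u v : V)
    (huv : G.Adj u v) : Good G u v := by
  classical
  refine h V G (Fintype.card V / 9) (fun z => ?_) (Nat.mul_div_le _ 9) u v huv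
  rw [Nb_ncard]
  have := hdeg z
  omega

end Pool.Agent.H84R2.BW
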